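import Mathlib

/-!
MP_49c83e_al, Theorem III, foundations: polynomial functions k → V (k infinite) and their
coefficients.
-/

namespace Pool.Agent.Sp49.Three

section Poly

variable {k : Type} [Field k] {V W U : Type} [AddCommGroup V] [Module k V]
  [AddCommGroup W] [Module k W] [AddCommGroup U] [Module k U]

/-- the polynomial function with coefficients c -/
noncomputable def pev (c : ℕ →₀ V) (t : k) : V := c.sum fun i v => t ^ i • v

/-- polynomial functions k → V -/
def IsPoly (φ : k → V) : Prop := ∃ c : ℕ →₀ V, ∀ t, φ t = pev c t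

theorem pev_add (c d : ℕ →₀ V) (t : k) : pev (c + d) t = pev c t + pev d t :=
  Finsupp.sum_add_index' (by simp) (by simp)

theorem pev_single (i : ℕ) (v : V) (t : k) : pev (Finsupp.single i v) t = t ^ i • v := by
  simp [pev, Finsupp.sum_single_index]

theorem pev_zero (t : k) : pev (0 : ℕ →₀ V) t = 0 := by simp [pev]

theorem pev_smul (r : k) (c : ℕ →₀ V) (t : k) : pev (r • c) t = r • pev c t := by
  unfold pev
  rw [Finsupp.sum_smul_index' (by simp), Finsupp.smul_sum]
  congr 1
  funext i v
  rw [smul_comm]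

theorem pev_neg (c : ℕ →₀ V) (t : k) : pev (-c) t = - pev c t := by
  have := pev_smul (-1 : k) c t
  simpa using this

theorem pev_sub (c d : ℕ →₀ V) (t : k) : pev (c - d) t = pev c t - pev d t := by
  rw [sub_eq_add_neg, pev_add, pev_neg, sub_eq_add_neg]

theorem pev_map (f : V →ₗ[k] W) (c : ℕ →₀ V) (t : k) :
    pev (Finsupp.mapRange.linearMap f c) t = f (pev c t) := by
  unfold pev
  rw [Finsupp.mapRange.linearMap_apply, Finsupp.sum_mapRange_index (by simp), map_finsuppSum]
  congr 1
  funext i v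
  rw [map_smul]

/-- a finite sum form of pev -/
theorem pev_eq_sum (c : ℕ →₀ V) (N : ℕ) (hN : ∀ i, N ≤ i → c i = 0) (t : k) :
    pev c t = ∑ i ∈ Finset.range N, t ^ i • c i := by
  unfold pev
  rw [Finsupp.sum_of_support_subset]
  · intro i hi
    rw [Finset.mem_range]
    by_contra h
    exact (Finsupp.mem_support_iff.mp hi) (hN i (by omega))
  · simp

theorem exists_bound (c : ℕ →₀ V) : ∃ N, ∀ i, N ≤ i → c i = 0 := by
  refine ⟨c.support.sup id + 1, fun i hi => ?_⟩
  by_contra h
  have h1 : i ≤ c.support.sup id :=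
    Finset.le_sup (f := id) (Finsupp.mem_support_iff.mpr h)
  omega

theorem pev_at_zero (c : ℕ →₀ V) : pev c (0 : k) = c 0 := by
  obtain ⟨N, hN⟩ := exists_bound c
  rw [pev_eq_sum c (N + 1) (fun i hi => hN i (by omega)), Finset.sum_eq_single 0]
  · simp
  · intro i _ hi
    simp [hi]
  · simp

/-- a polynomial function with infinitely many zeros is zero -/
theorem coeff_zero_of_infinite (c : ℕ →₀ V) (h : Set.Infinite {t : k | pev c t = 0}) : c = 0 := by
  ext i
  rw [Finsupp.zero_apply, ← Module.forall_dual_apply_eq_zero_iff k (c i)]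
  intro f
  obtain ⟨N, hN⟩ := exists_bound c
  let P : Polynomial k := ∑ j ∈ Finset.range N, Polynomial.monomial j (f (c j))
  have hP : P = 0 := by
    apply Polynomial.eq_zero_of_infinite_isRoot
    refine h.mono ?_
    intro t ht
    simp only [Set.mem_ofPred_eq] at ht ⊢
    rw [pev_eq_sum c N hN] at ht
    have h2 := congrArg f ht
    simp only [Polynomial.IsRoot, P, Polynomial.eval_finsetSum, Polynomial.eval_monomial]
    rw [map_sum, map_zero] at h2
    rw [← h2]
    apply Finset.sum_congr rfl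
    intro j _
    rw [map_smul, smul_eq_mul, mul_comm]
  by_cases hi : i < N
  · have h3 := congrArg (fun Q => Polynomial.coeff Q i) hP
    simp only [P, Polynomial.finsetSum_coeff, Polynomial.coeff_monomial,
      Polynomial.coeff_zero] at h3
    rw [Finset.sum_eq_single i] at h3
    · simpa using h3
    · intro j _ hj
      simp [hj]
    · intro h4
      exact absurd (Finset.mem_range.mpr hi) h4
  · rw [hN i (by omega), map_zero]

/-- uniqueness of coefficients -/
theorem pev_inj [Infinite k] (c d : ℕ →₀ V) (h : ∀ t : k, pev c t = pev d t) : c = d := by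
  have : c - d = 0 := by
    apply coeff_zero_of_infinite (k := k)
    have : {t : k | pev (c - d) t = 0} = Set.univ := by
      ext t
      simp [pev_sub, h t]
    rw [this]
    exact Set.infinite_univ
  exact sub_eq_zero.mp this

/-- values in a submodule for infinitely many t: coefficients in the submodule -/
theorem coeff_mem_of_infinite (c : ℕ →₀ V) (S : Submodule k V)
    (h : Set.Infinite {t : k | pev c t ∈ S}) (i : ℕ) : c i ∈ S := by
  have h1 : Finsupp.mapRange.linearMap S.mkQ c = 0 := by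
    apply coeff_zero_of_infinite (k := k)
    refine h.mono ?_
    intro t ht
    simp only [Set.mem_ofPred_eq] at ht ⊢
    rw [pev_map]
    simpa using ht
  have h2 := DFunLike.congr_fun h1 i
  simpa using h2

theorem IsPoly.add {φ ψ : k → V} (h1 : IsPoly φ) (h2 : IsPoly ψ) :
    IsPoly (fun t => φ t + ψ t) := by
  obtain ⟨c, hc⟩ := h1
  obtain ⟨d, hd⟩ := h2
  exact ⟨c + d, fun t => by simp only [hc, hd, pev_add]⟩

theorem IsPoly.monomial (i : ℕ) (v : V) : IsPoly (fun t : k => t ^ i • v) :=
  ⟨Finsupp.single i v, fun t => (pev_single i v t).symm⟩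

theorem IsPoly.const (v : V) : IsPoly (fun _ : k => v) :=
  ⟨Finsupp.single 0 v, fun t => by rw [pev_single]; simp⟩

theorem IsPoly.smul {φ : k → V} (r : k) (h1 : IsPoly φ) : IsPoly (fun t => r • φ t) := by
  obtain ⟨c, hc⟩ := h1
  exact ⟨r • c, fun t => by simp only [hc, pev_smul]⟩

theorem IsPoly.neg {φ : k → V} (h1 : IsPoly φ) : IsPoly (fun t => - φ t) := by
  obtain ⟨c, hc⟩ := h1
  exact ⟨-c, fun t => by simp only [hc, pev_neg]⟩

theorem IsPoly.sub {φ ψ : k → V} (h1 : IsPoly φ) (h2 : IsPoly ψ) :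
    IsPoly (fun t => φ t - ψ t) := by
  obtain ⟨c, hc⟩ := h1
  obtain ⟨d, hd⟩ := h2
  exact ⟨c - d, fun t => by simp only [hc, hd, pev_sub]⟩

theorem IsPoly.sum {ι : Type} (s : Finset ι) (φ : ι → k → V) (h : ∀ i ∈ s, IsPoly (φ i)) :
    IsPoly (fun t => ∑ i ∈ s, φ i t) := by
  classical
  induction s using Finset.induction_on with
  | empty => simpa using IsPoly.const (k := k) (0 : V)
  | insert a s ha ih =>
    have h1 := h a (Finset.mem_insert_self a s)
    have h2 := ih (fun i hi => h i (Finset.mem_insert_of_mem hi))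
    refine (h1.add h2).imp fun c hc t => ?_
    rw [← hc t]
    simp only [Finset.sum_insert ha]

theorem IsPoly.map (f : V →ₗ[k] W) {φ : k → V} (h : IsPoly φ) : IsPoly (fun t => f (φ t)) := by
  obtain ⟨c, hc⟩ := h
  exact ⟨Finsupp.mapRange.linearMap f c, fun t => by simp only [hc, pev_map]⟩

/-- bilinear combination of polynomial functions -/
theorem IsPoly.bilin (B : V →ₗ[k] W →ₗ[k] U) {φ : k → V} {ψ : k → W} (h1 : IsPoly φ)
    (h2 : IsPoly ψ) : IsPoly (fun t => B (φ t) (ψ t)) := by
  obtain ⟨c, hc⟩ := h1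
  obtain ⟨d, hd⟩ := h2
  obtain ⟨N, hN⟩ := exists_bound c
  obtain ⟨M, hM⟩ := exists_bound d
  have : (fun t => B (φ t) (ψ t)) = fun t => ∑ i ∈ Finset.range N, ∑ j ∈ Finset.range M,
      t ^ (i + j) • B (c i) (d j) := by
    funext t
    rw [hc, hd, pev_eq_sum c N hN, pev_eq_sum d M hM, LinearMap.map_sum₂]
    apply Finset.sum_congr rfl
    intro i _
    rw [map_sum]
    apply Finset.sum_congr rfl
    intro j _
    rw [map_smul, LinearMap.map_smul₂, smul_smul, pow_add]
    congr 1
    ring
  rw [this]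
  exact IsPoly.sum _ _ fun i _ => IsPoly.sum _ _ fun j _ => IsPoly.monomial _ _

/-- substitution t ↦ a t^m -/
theorem IsPoly.comp_pow {φ : k → V} (h : IsPoly φ) (a : k) (m : ℕ) :
    IsPoly (fun t => φ (a * t ^ m)) := by
  obtain ⟨c, hc⟩ := h
  obtain ⟨N, hN⟩ := exists_bound c
  have : (fun t => φ (a * t ^ m)) = fun t => ∑ i ∈ Finset.range N, t ^ (m * i) • (a ^ i • c i) := by
    funext t
    rw [hc, pev_eq_sum c N hN]
    apply Finset.sum_congr rfl
    intro i _
    rw [smul_smul, mul_pow, ← pow_mul, mul_comm]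
  rw [this]
  exact IsPoly.sum _ _ fun i _ => IsPoly.monomial _ _

/-- the coefficients of a polynomial function (0 if not polynomial) -/
noncomputable def cof (φ : k → V) : ℕ →₀ V := by
  classical exact if h : IsPoly φ then h.choose else 0

theorem cof_spec {φ : k → V} (h : IsPoly φ) (t : k) : φ t = pev (cof φ) t := by
  unfold cof
  rw [dif_pos h]
  exact h.choose_spec t

theorem cof_eq [Infinite k] {φ : k → V} (c : ℕ →₀ V) (h : ∀ t, φ t = pev c t) : cof φ = c := by
  apply pev_inj (k := k)
  intro t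
  rw [← cof_spec ⟨c, h⟩ t, h t]

theorem cof_map [Infinite k] (f : V →ₗ[k] W) {φ : k → V} (h : IsPoly φ) (i : ℕ) :
    cof (fun t => f (φ t)) i = f (cof φ i) := by
  rw [cof_eq (Finsupp.mapRange.linearMap f (cof φ)) (fun t => by rw [cof_spec h t, pev_map])]
  simp

theorem cof_add [Infinite k] {φ ψ : k → V} (h1 : IsPoly φ) (h2 : IsPoly ψ) (i : ℕ) :
    cof (fun t => φ t + ψ t) i = cof φ i + cof ψ i := by
  rw [cof_eq (cof φ + cof ψ) (fun t => by rw [cof_spec h1 t, cof_spec h2 t, pev_add])]
  simp

theorem cof_smul [Infinite k] {φ : k → V} (r : k) (h1 : IsPoly φ) (i : ℕ) :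
    cof (fun t => r • φ t) i = r • cof φ i := by
  rw [cof_eq (r • cof φ) (fun t => by rw [cof_spec h1 t, pev_smul])]
  simp

theorem cof_mem [Infinite k] {φ : k → V} (h : IsPoly φ) (S : Submodule k V)
    (hS : Set.Infinite {t | φ t ∈ S}) (i : ℕ) : cof φ i ∈ S := by
  apply coeff_mem_of_infinite (k := k)
  refine hS.mono ?_
  intro t ht
  simp only [Set.mem_ofPred_eq] at ht ⊢
  rwa [← cof_spec h t]

theorem cof_mem' [Infinite k] {φ : k → V} (h : IsPoly φ) (S : Submodule k V)
    (hS : ∀ t, φ t ∈ S) (i : ℕ) : cof φ i ∈ S := by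
  apply cof_mem h
  have : {t | φ t ∈ S} = Set.univ := by
    ext t
    simp [hS t]
  rw [this]
  exact Set.infinite_univ

theorem cof_zero_eq [Infinite k] {φ : k → V} (h : IsPoly φ) : cof φ 0 = φ 0 := by
  rw [cof_spec h 0, pev_at_zero]

/-- a function into a submodule is polynomial if it is so in the big space -/
theorem IsPoly.of_coe [Infinite k] {S : Submodule k V} {φ : k → S}
    (h : IsPoly (fun t => (φ t : V))) : IsPoly φ := by
  obtain ⟨N, hN⟩ := exists_bound (cof fun t => (φ t : V))
  have hm : ∀ i, cof (fun t => (φ t : V)) i ∈ S := fun i => cof_mem' h S (fun t => (φ t).2) i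
  have : φ = fun t => ∑ i ∈ Finset.range N, t ^ i • (⟨_, hm i⟩ : S) := by
    funext t
    apply Subtype.ext
    rw [cof_spec h t, pev_eq_sum _ N hN]
    rw [AddSubmonoidClass.coe_finsetSum]
    rfl
  rw [this]
  exact IsPoly.sum _ _ fun i _ => IsPoly.monomial _ _

end Poly

end Pool.Agent.Sp49.Three
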