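import Mathlib
import Pool.Agent.Lib.MP_49c83e_al.Three.Poly

/-!
MP_49c83e_al, Theorem III: rational representations of the abstract group SL_2(k) and the
basic constructions (sub, quotient, product, tensor product, tensor with the natural module,
Frobenius twist, binary forms).
-/

namespace Pool.Agent.Sp49.Three

open Matrix TensorProduct

abbrev SL2 (k : Type) [Field k] := Matrix.SpecialLinearGroup (Fin 2) k

section Elements
variable {k : Type} [Field k]

/-- upper unipotent -/
def xx (t : k) : SL2 k := ⟨!![1, t; 0, 1], by simp [Matrix.det_fin_two]⟩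
/-- lower unipotent -/
def yy (t : k) : SL2 k := ⟨!![1, 0; t, 1], by simp [Matrix.det_fin_two]⟩
/-- torus -/
def hh (s : kˣ) : SL2 k := ⟨!![(s : k), 0; 0, ((s⁻¹ : kˣ) : k)], by simp [Matrix.det_fin_two]⟩

end Elements

/-- rational: the orbit maps of xx, yy are polynomial -/
def Rat {k : Type} [Field k] {V : Type} [AddCommGroup V] [Module k V]
    (ρ : SL2 k →* (V →ₗ[k] V)) : Prop :=
  ∀ v, IsPoly (fun t => ρ (xx t) v) ∧ IsPoly (fun t => ρ (yy t) v)

/-- finite dimensional rational SL_2(k)-modules -/
structure Ob (k : Type) [Field k] where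
  V : Type
  [ac : AddCommGroup V]
  [md : Module k V]
  [fd : Module.Finite k V]
  ρ : SL2 k →* (V →ₗ[k] V)
  rat : Rat ρ

attribute [instance] Ob.ac Ob.md Ob.fd

/-- equivariant linear maps -/
def IsHom {k : Type} [Field k] (X Y : Ob k) (f : X.V →ₗ[k] Y.V) : Prop :=
  ∀ g v, f (X.ρ g v) = Y.ρ g (f v)

/-- isomorphic objects -/
def Iso {k : Type} [Field k] (X Y : Ob k) : Prop := ∃ f : X.V ≃ₗ[k] Y.V, IsHom X Y f.toLinearMap

/-- X is a retract of Y -/
def Rt {k : Type} [Field k] (X Y : Ob k) : Prop :=
  ∃ (i : X.V →ₗ[k] Y.V) (r : Y.V →ₗ[k] X.V), IsHom X Y i ∧ IsHom Y X r ∧ ∀ v, r (i v) = v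

section Constr
variable {k : Type} [Field k] [IsAlgClosed k]

/-- subobject -/
def sub (X : Ob k) (S : Submodule k X.V) (hS : ∀ g, ∀ v ∈ S, X.ρ g v ∈ S) : Ob k where
  V := S
  ρ :=
    { toFun := fun g => (X.ρ g).restrict (hS g)
      map_one' := by
        ext v
        simp
      map_mul' := fun g h => by
        ext v
        simp }
  rat := fun v => ⟨IsPoly.of_coe (X.rat v).1, IsPoly.of_coe (X.rat v).2⟩

/-- kernel of an equivariant map -/
def kerO (X Y : Ob k) (f : X.V →ₗ[k] Y.V) (hf : IsHom X Y f) : Ob k :=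
  sub X (LinearMap.ker f) fun g v hv => by
    rw [LinearMap.mem_ker] at hv ⊢
    rw [hf, hv, map_zero]

/-- quotient object -/
def quo (X : Ob k) (S : Submodule k X.V) (hS : ∀ g, ∀ v ∈ S, X.ρ g v ∈ S) : Ob k where
  V := X.V ⧸ S
  ρ :=
    { toFun := fun g => S.mapQ S (X.ρ g) (hS g)
      map_one' := by
        apply LinearMap.ext
        intro v
        obtain ⟨w, rfl⟩ := S.mkQ_surjective v
        simp
      map_mul' := fun g h => by
        apply LinearMap.ext
        intro v
        obtain ⟨w, rfl⟩ := S.mkQ_surjective v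
        simp }
  rat := fun v => by
    obtain ⟨w, rfl⟩ := S.mkQ_surjective v
    exact ⟨(X.rat w).1.map S.mkQ, (X.rat w).2.map S.mkQ⟩

omit [IsAlgClosed k] in
theorem isPoly_pair {V W : Type} [AddCommGroup V] [Module k V] [AddCommGroup W] [Module k W]
    {φ : k → V} {ψ : k → W} (h1 : IsPoly φ) (h2 : IsPoly ψ) : IsPoly (fun t => (φ t, ψ t)) := by
  have h := (h1.map (LinearMap.inl k V W)).add (h2.map (LinearMap.inr k V W))
  simpa using h

/-- product object -/
def prodO (X Y : Ob k) : Ob k where
  V := X.V × Y.V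
  ρ :=
    { toFun := fun g => (X.ρ g).prodMap (Y.ρ g)
      map_one' := by ext <;> simp
      map_mul' := fun g h => by ext <;> simp }
  rat := fun v => ⟨isPoly_pair (X.rat v.1).1 (Y.rat v.2).1, isPoly_pair (X.rat v.1).2 (Y.rat v.2).2⟩

/-- tensor product -/
noncomputable def tens (X Y : Ob k) : Ob k where
  V := X.V ⊗[k] Y.V
  ρ :=
    { toFun := fun g => TensorProduct.map (X.ρ g) (Y.ρ g)
      map_one' := by
        rw [map_one, map_one]
        exact TensorProduct.map_one
      map_mul' := fun g h => by
        rw [map_mul, map_mul]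
        exact TensorProduct.map_mul _ _ _ _ }
  rat := by
    intro v
    constructor
    · show IsPoly fun t => TensorProduct.map (X.ρ (xx t)) (Y.ρ (xx t)) v
      induction v using TensorProduct.induction_on with
      | zero => simpa using IsPoly.const (k := k) (0 : X.V ⊗[k] Y.V)
      | tmul a b =>
        simp only [TensorProduct.map_tmul]
        exact (X.rat a).1.bilin (TensorProduct.mk k X.V Y.V) (Y.rat b).1
      | add a b ha hb =>
        simp only [map_add]
        exact ha.add hb
    · show IsPoly fun t => TensorProduct.map (X.ρ (yy t)) (Y.ρ (yy t)) v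
      induction v using TensorProduct.induction_on with
      | zero => simpa using IsPoly.const (k := k) (0 : X.V ⊗[k] Y.V)
      | tmul a b =>
        simp only [TensorProduct.map_tmul]
        exact (X.rat a).2.bilin (TensorProduct.mk k X.V Y.V) (Y.rat b).2
      | add a b ha hb =>
        simp only [map_add]
        exact ha.add hb

omit [IsAlgClosed k] in
theorem tens_ρ (X Y : Ob k) (g : SL2 k) (a : X.V) (b : Y.V) :
    (tens X Y).ρ g (a ⊗ₜ[k] b) = (X.ρ g a) ⊗ₜ[k] (Y.ρ g b) := rfl

/-- the action on X ⊗ W = X × X, (u, v) = u ⊗ x + v ⊗ y -/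
def tWρ (X : Ob k) (g : SL2 k) : (X.V × X.V) →ₗ[k] (X.V × X.V) :=
  LinearMap.prod
    ((g.1 0 0 • (X.ρ g)) ∘ₗ LinearMap.fst k X.V X.V + (g.1 0 1 • (X.ρ g)) ∘ₗ LinearMap.snd k X.V X.V)
    ((g.1 1 0 • (X.ρ g)) ∘ₗ LinearMap.fst k X.V X.V + (g.1 1 1 • (X.ρ g)) ∘ₗ LinearMap.snd k X.V X.V)

omit [IsAlgClosed k] in
theorem tWρ_apply (X : Ob k) (g : SL2 k) (u v : X.V) :
    tWρ X g (u, v) = (g.1 0 0 • X.ρ g u + g.1 0 1 • X.ρ g v,
      g.1 1 0 • X.ρ g u + g.1 1 1 • X.ρ g v) := rfl

/-- tensor product with the natural module W = <x, y> -/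
def tW (X : Ob k) : Ob k where
  V := X.V × X.V
  ρ :=
    { toFun := tWρ X
      map_one' := by
        apply LinearMap.ext
        rintro ⟨u, v⟩
        rw [tWρ_apply]
        simp
      map_mul' := fun g h => by
        apply LinearMap.ext
        rintro ⟨u, v⟩
        rw [Module.End.mul_apply, tWρ_apply, tWρ_apply, tWρ_apply]
        have e : ∀ i j, (g * h).1 i j = g.1 i 0 * h.1 0 j + g.1 i 1 * h.1 1 j := by
          intro i j
          rw [Matrix.SpecialLinearGroup.coe_mul, Matrix.mul_apply, Fin.sum_univ_two]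
        rw [e, e, e, e]
        simp only [map_mul, Module.End.mul_apply, map_add, map_smul]
        rw [Prod.mk.injEq]
        constructor <;> module }
  rat := by
    rintro ⟨u, v⟩
    constructor
    · refine isPoly_pair ?_ ?_
      · have h1 := (X.rat u).1
        have h2 := (IsPoly.monomial (k := k) 1 (1 : k)).bilin (LinearMap.lsmul k X.V) (X.rat v).1
        have h := h1.add h2
        refine h.imp fun c hc t => ?_
        rw [← hc t]
        simp [xx]
      · refine (X.rat v).1.imp fun c hc t => ?_
        rw [← hc t]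
        simp [xx]
    · refine isPoly_pair ?_ ?_
      · refine (X.rat u).2.imp fun c hc t => ?_
        rw [← hc t]
        simp [yy]
      · have h1 := (IsPoly.monomial (k := k) 1 (1 : k)).bilin (LinearMap.lsmul k X.V) (X.rat u).2
        have h2 := (X.rat v).2
        have h := h1.add h2
        refine h.imp fun c hc t => ?_
        rw [← hc t]
        simp [yy]

omit [IsAlgClosed k] in
theorem tW_ρ (X : Ob k) (g : SL2 k) (u v : X.V) :
    (tW X).ρ g (u, v) = (g.1 0 0 • X.ρ g u + g.1 0 1 • X.ρ g v,
      g.1 1 0 • X.ρ g u + g.1 1 1 • X.ρ g v) := rfl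

/-- iterated tensor product with W -/
def tWn : ℕ → Ob k → Ob k
  | 0, X => X
  | n + 1, X => tW (tWn n X)

/-- the trivial module k -/
def one (k : Type) [Field k] : Ob k where
  V := k
  ρ := 1
  rat := fun v => ⟨IsPoly.const v, IsPoly.const v⟩

/-- the zero module -/
def zer (k : Type) [Field k] : Ob k where
  V := PUnit
  ρ := 1
  rat := fun v => ⟨IsPoly.const v, IsPoly.const v⟩

/-- W^{⊗ m} -/
def Wp (k : Type) [Field k] [IsAlgClosed k] (m : ℕ) : Ob k := tWn m (one k)

/-- Frobenius twist -/
def fr (p : ℕ) [Fact p.Prime] [CharP k p] (X : Ob k) : Ob k where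
  V := X.V
  ρ := X.ρ.comp (Matrix.SpecialLinearGroup.map (frobenius k p))
  rat := by
    intro v
    have e1 : ∀ t : k, Matrix.SpecialLinearGroup.map (frobenius k p) (xx t) = xx (1 * t ^ p) := by
      intro t
      ext i j
      rw [Matrix.SpecialLinearGroup.map_apply_coe]
      have hp : p ≠ 0 := (Fact.out : p.Prime).ne_zero
      fin_cases i <;> fin_cases j <;> simp [xx, frobenius_def, hp]
    have e2 : ∀ t : k, Matrix.SpecialLinearGroup.map (frobenius k p) (yy t) = yy (1 * t ^ p) := by
      intro t
      ext i j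
      rw [Matrix.SpecialLinearGroup.map_apply_coe]
      have hp : p ≠ 0 := (Fact.out : p.Prime).ne_zero
      fin_cases i <;> fin_cases j <;> simp [yy, frobenius_def, hp]
    constructor
    · simp only [MonoidHom.comp_apply, e1]
      exact (X.rat v).1.comp_pow 1 p
    · simp only [MonoidHom.comp_apply, e2]
      exact (X.rat v).2.comp_pow 1 p

/-! ### binary forms -/

/-- the monomial x^(a-i) y^i as a function on k^2 -/
def mon (k : Type) [Field k] (a i : ℕ) : k → k → k := fun s t => s ^ (a - i) * t ^ i

/-- binary forms of degree a, as functions on k^2 -/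
def homF (k : Type) [Field k] (a : ℕ) : Submodule k (k → k → k) :=
  Submodule.span k (Set.range fun i : Fin (a + 1) => mon k a i)

omit [IsAlgClosed k] in
theorem mon_mem (a i : ℕ) (hi : i ≤ a) : mon k a i ∈ homF k a :=
  Submodule.subset_span ⟨⟨i, by omega⟩, rfl⟩

instance homF_fin (a : ℕ) : Module.Finite k (homF k a) :=
  Module.Finite.span_of_finite k (Set.finite_range _)

/-- substitution, (g f)(v) = f(v g) -/
def subst (g : Matrix (Fin 2) (Fin 2) k) : (k → k → k) →ₗ[k] (k → k → k) where
  toFun f := fun s t => f (g 0 0 * s + g 1 0 * t) (g 0 1 * s + g 1 1 * t)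
  map_add' _ _ := rfl
  map_smul' _ _ := rfl

omit [IsAlgClosed k] in
theorem homF_mul {a b : ℕ} {f h : k → k → k} (hf : f ∈ homF k a) (hh : h ∈ homF k b) :
    f * h ∈ homF k (a + b) := by
  refine Submodule.span_induction ?_ ?_ ?_ ?_ hf
  · rintro _ ⟨i, rfl⟩
    refine Submodule.span_induction ?_ ?_ ?_ ?_ hh
    · rintro _ ⟨j, rfl⟩
      have : mon k a i * mon k b j = mon k (a + b) (i + j) := by
        funext s t
        have h1 := i.2
        have h2 := j.2
        simp only [Pi.mul_apply, mon]
        have e : a + b - ((i : ℕ) + j) = (a - i) + (b - j) := by omega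
        rw [e, pow_add, pow_add]
        ring
      rw [this]
      apply mon_mem
      have h1 := i.2
      have h2 := j.2
      omega
    · rw [mul_zero]
      exact zero_mem _
    · intro u v _ _ hu hv
      rw [mul_add]
      exact add_mem hu hv
    · intro c u _ hu
      rw [mul_smul_comm]
      exact Submodule.smul_mem _ _ hu
  · rw [zero_mul]
    exact zero_mem _
  · intro u v _ _ hu hv
    rw [add_mul]
    exact add_mem hu hv
  · intro c u _ hu
    rw [smul_mul_assoc]
    exact Submodule.smul_mem _ _ hu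

omit [IsAlgClosed k] in
theorem homF_one : (fun _ _ => 1 : k → k → k) ∈ homF k 0 := by
  have h := mon_mem (k := k) 0 0 le_rfl
  have e : mon k 0 0 = fun _ _ => (1 : k) := by
    funext s t
    simp [mon]
  rwa [e] at h

omit [IsAlgClosed k] in
theorem homF_lin (α β : k) : (fun s t => α * s + β * t : k → k → k) ∈ homF k 1 := by
  have h1 := mon_mem (k := k) 1 0 (by norm_num)
  have h2 := mon_mem (k := k) 1 1 le_rfl
  have h := add_mem (Submodule.smul_mem _ α h1) (Submodule.smul_mem _ β h2)
  have e : α • mon k 1 0 + β • mon k 1 1 = fun s t => α * s + β * t := by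
    funext s t
    simp [mon]
  rwa [e] at h

omit [IsAlgClosed k] in
theorem homF_pow {a : ℕ} {f : k → k → k} (hf : f ∈ homF k a) (n : ℕ) :
    f ^ n ∈ homF k (a * n) := by
  induction n with
  | zero =>
    rw [pow_zero, mul_zero]
    exact homF_one
  | succ n ih =>
    rw [pow_succ, Nat.mul_succ]
    exact homF_mul ih hf

omit [IsAlgClosed k] in
theorem subst_mem (g : Matrix (Fin 2) (Fin 2) k) (a : ℕ) {f : k → k → k} (hf : f ∈ homF k a) :
    subst g f ∈ homF k a := by
  refine Submodule.span_induction ?_ ?_ ?_ ?_ hf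
  · rintro _ ⟨i, rfl⟩
    have h1 := homF_pow (homF_lin (g 0 0) (g 1 0)) (a - i)
    have h2 := homF_pow (homF_lin (g 0 1) (g 1 1)) i
    have h3 := homF_mul h1 h2
    have hi := i.2
    have e : 1 * (a - (i : ℕ)) + 1 * i = a := by omega
    rw [e] at h3
    exact h3
  · rw [map_zero]
    exact zero_mem _
  · intro u v _ _ hu hv
    rw [map_add]
    exact add_mem hu hv
  · intro c u _ hu
    rw [map_smul]
    exact Submodule.smul_mem _ _ hu

/-- pointwise multiplication as a bilinear map -/
def mulB (k : Type) [Field k] : (k → k → k) →ₗ[k] (k → k → k) →ₗ[k] (k → k → k) :=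
  LinearMap.mul k (k → k → k)

omit [IsAlgClosed k] in
theorem isPoly_powF {φ : k → (k → k → k)} (h : IsPoly φ) (n : ℕ) :
    IsPoly (fun t => (φ t) ^ n) := by
  induction n with
  | zero => simpa using IsPoly.const (k := k) (1 : k → k → k)
  | succ n ih =>
    have := ih.bilin (mulB k) h
    refine this.imp fun c hc t => ?_
    rw [← hc t]
    simp [mulB, pow_succ]

/-- the module ∇(a) of binary forms of degree a -/
def nab (k : Type) [Field k] [IsAlgClosed k] (a : ℕ) : Ob k where
  V := homF k a
  ρ :=
    { toFun := fun g => (subst g.1).restrict (fun _ hf => subst_mem g.1 a hf)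
      map_one' := by
        ext f s t
        simp [subst]
      map_mul' := fun g h => by
        ext f s t
        simp only [LinearMap.restrict_apply, Module.End.mul_apply, subst, LinearMap.coe_mk,
          AddHom.coe_mk, Matrix.SpecialLinearGroup.coe_mul, Matrix.mul_apply, Fin.sum_univ_two]
        have e : ∀ a b c d : k, a = c → b = d → (f : k → k → k) a b = (f : k → k → k) c d := by
          rintro a b c d rfl rfl
          rfl
        apply e <;> ring }
  rat := by
    have key : ∀ (A B C D : k → k), IsPoly A → IsPoly B → IsPoly C → IsPoly D →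
        ∀ f ∈ homF k a, IsPoly (fun τ : k => subst !![A τ, B τ; C τ, D τ] f) := by
      intro A B C D hA hB hC hD f hf
      have hlin : ∀ P Q : k → k, IsPoly P → IsPoly Q →
          IsPoly (fun τ : k => (fun s t => P τ * s + Q τ * t : k → k → k)) := by
        intro P Q hP hQ
        have h1 := hP.map (LinearMap.toSpanSingleton k (k → k → k) (fun s _ => s))
        have h2 := hQ.map (LinearMap.toSpanSingleton k (k → k → k) (fun _ t => t))
        refine (h1.add h2).imp fun c hc t => ?_
        rw [← hc t]
        funext s t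
        simp
      refine Submodule.span_induction ?_ ?_ ?_ ?_ hf
      · rintro _ ⟨i, rfl⟩
        have h1 := isPoly_powF (hlin A C hA hC) (a - i)
        have h2 := isPoly_powF (hlin B D hB hD) i
        refine (h1.bilin (mulB k) h2).imp fun c hc t => ?_
        rw [← hc t]
        funext s t
        simp [mulB, subst, mon]
      · simpa using IsPoly.const (k := k) (0 : k → k → k)
      · intro u v _ _ hu hv
        simp only [map_add]
        exact hu.add hv
      · intro c u _ hu
        simp only [map_smul]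
        exact hu.smul c
    have hid : IsPoly (fun τ : k => τ) := by
      have := IsPoly.monomial (k := k) 1 (1 : k)
      simpa using this
    rintro ⟨f, hf⟩
    exact ⟨IsPoly.of_coe (key (fun _ => 1) (fun τ => τ) (fun _ => 0) (fun _ => 1)
        (IsPoly.const _) hid (IsPoly.const _) (IsPoly.const _) f hf),
      IsPoly.of_coe (key (fun _ => 1) (fun _ => 0) (fun τ => τ) (fun _ => 1)
        (IsPoly.const _) (IsPoly.const _) hid (IsPoly.const _) f hf)⟩

theorem nab_ρ (a : ℕ) (g : SL2 k) (f : (nab k a).V) (s t : k) :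
    ((nab k a).ρ g f).1 s t = f.1 (g.1 0 0 * s + g.1 1 0 * t) (g.1 0 1 * s + g.1 1 1 * t) := rfl

/-- the basis vector x^(a-i) y^i of ∇(a) (0 if i > a) -/
def mm (k : Type) [Field k] [IsAlgClosed k] (a i : ℕ) : (nab k a).V :=
  if h : i ≤ a then ⟨mon k a i, mon_mem a i h⟩ else 0

end Constr

end Pool.Agent.Sp49.Three
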