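import Mathlib
import Pool.Agent.Lib.MP_49c83e_al.III
import Pool.Agent.Lib.MP_49c83e_al.Three.Ob

/-!
MP_49c83e_al, Theorem III: divided powers, weights, Casimir blocks, the functor F_a,
modules with a good filtration (NF), tilting modules (TT), resolutions, and the complex K.
-/

namespace Pool.Agent.Sp49.Three

open Matrix TensorProduct

variable {k : Type} [Field k] [IsAlgClosed k]

/-! ### divided powers, weights, Casimir -/

/-- E^{(i)} : the coefficient of t^i in x(t) -/
noncomputable def ee (X : Ob k) (i : ℕ) : X.V →ₗ[k] X.V where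
  toFun v := cof (fun t => X.ρ (xx t) v) i
  map_add' u v := by
    simp only [map_add]
    exact cof_add (X.rat u).1 (X.rat v).1 i
  map_smul' c v := by
    simp only [map_smul]
    exact cof_smul c (X.rat v).1 i

/-- F^{(i)} : the coefficient of t^i in y(t) -/
noncomputable def ff (X : Ob k) (i : ℕ) : X.V →ₗ[k] X.V where
  toFun v := cof (fun t => X.ρ (yy t) v) i
  map_add' u v := by
    simp only [map_add]
    exact cof_add (X.rat u).2 (X.rat v).2 i
  map_smul' c v := by
    simp only [map_smul]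
    exact cof_smul c (X.rat v).2 i

omit [IsAlgClosed k] in
theorem xx_pev (X : Ob k) (v : X.V) (t : k) :
    X.ρ (xx t) v = pev (cof fun t => X.ρ (xx t) v) t := cof_spec (X.rat v).1 t

omit [IsAlgClosed k] in
theorem yy_pev (X : Ob k) (v : X.V) (t : k) :
    X.ρ (yy t) v = pev (cof fun t => X.ρ (yy t) v) t := cof_spec (X.rat v).2 t

/-- ee is computed by any polynomial expression of xx t v -/
theorem ee_eq (X : Ob k) (v : X.V) (c : ℕ →₀ X.V) (h : ∀ t, X.ρ (xx t) v = pev c t) (i : ℕ) :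
    ee X i v = c i := DFunLike.congr_fun (cof_eq c h) i

theorem ff_eq (X : Ob k) (v : X.V) (c : ℕ →₀ X.V) (h : ∀ t, X.ρ (yy t) v = pev c t) (i : ℕ) :
    ff X i v = c i := DFunLike.congr_fun (cof_eq c h) i

omit [IsAlgClosed k] in
/-- the weight space of weight a -/
def wt (X : Ob k) (a : ℤ) : Submodule k X.V where
  carrier := {v | ∀ s : kˣ, X.ρ (hh s) v = ((s ^ a : kˣ) : k) • v}
  zero_mem' := fun s => by simp
  add_mem' := fun {u v} hu hv s => by
    rw [map_add, hu s, hv s, smul_add]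
  smul_mem' := fun c v hv s => by
    rw [map_smul, hv s, smul_comm]

/-- H = [E, F] (it acts on the weight space of weight a by the scalar a) -/
noncomputable def hop (X : Ob k) : X.V →ₗ[k] X.V :=
  ee X 1 ∘ₗ ff X 1 - ff X 1 ∘ₗ ee X 1

/-- the Casimir operator 4FE + (H+1)^2 -/
noncomputable def Cas (X : Ob k) : Module.End k X.V :=
  (4 : k) • (ff X 1 ∘ₗ ee X 1) + (hop X + LinearMap.id) ∘ₗ (hop X + LinearMap.id)

/-- the largest stable subspace of S -/
def gcore (X : Ob k) (S : Submodule k X.V) : Submodule k X.V where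
  carrier := {v | ∀ g, X.ρ g v ∈ S}
  zero_mem' := fun g => by
    rw [map_zero]
    exact zero_mem _
  add_mem' := fun {u v} hu hv g => by
    rw [map_add]
    exact add_mem (hu g) (hv g)
  smul_mem' := fun c v hv g => by
    rw [map_smul]
    exact Submodule.smul_mem _ _ (hv g)

omit [IsAlgClosed k] in
theorem gcore_stable (X : Ob k) (S : Submodule k X.V) (g : SL2 k) (v : X.V)
    (hv : v ∈ gcore X S) : X.ρ g v ∈ gcore X S := by
  intro h
  rw [← Module.End.mul_apply, ← map_mul]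
  exact hv (h * g)

/-- the generalised eigenspace of the Casimir operator (as a subspace) -/
noncomputable def blkS (X : Ob k) (c : k) : Submodule k X.V :=
  gcore X ((Cas X).maxGenEigenspace c)

/-- the generalised eigenspace of the Casimir operator (as an object) -/
noncomputable def blk (X : Ob k) (c : k) : Ob k :=
  sub X (blkS X c) (fun g v hv => gcore_stable X _ g v hv)

/-! ### the functor F_a -/

/-- vectors of weight a fixed by all xx t -/
def invs (X : Ob k) (a : ℤ) : Submodule k X.V where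
  carrier := {v | v ∈ wt X a ∧ ∀ t, X.ρ (xx t) v = v}
  zero_mem' := ⟨zero_mem _, fun t => by rw [map_zero]⟩
  add_mem' := fun {u v} hu hv => ⟨add_mem hu.1 hv.1, fun t => by
    rw [map_add, hu.2 t, hv.2 t]⟩
  smul_mem' := fun c v hv => ⟨Submodule.smul_mem _ _ hv.1, fun t => by
    rw [map_smul, hv.2 t]⟩

/-- the span of all y(t)v - v -/
def NN (X : Ob k) : Submodule k X.V :=
  Submodule.span k {w | ∃ t v, w = X.ρ (yy t) v - v}

/-- F_a(X) = image of the highest weight vectors of weight a in the coinvariants X / NN X -/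
def FF (X : Ob k) (a : ℤ) : Submodule k (X.V ⧸ NN X) := (invs X a).map (NN X).mkQ

/-- dim F_a(X) -/
noncomputable def fd (X : Ob k) (a : ℤ) : ℕ := Module.finrank k (FF X a)

/-! ### good filtrations and tilting modules -/

/-- modules with a good filtration -/
inductive NF : Ob k → Prop
  | zero (X : Ob k) (h : ∀ v : X.V, v = 0) : NF X
  | nab (a : ℕ) : NF (nab k a)
  | ext (X Y Z : Ob k) (f : X.V →ₗ[k] Y.V) (g : Y.V →ₗ[k] Z.V) (hf : IsHom X Y f)
      (hg : IsHom Y Z g) (inj : Function.Injective f) (exact : Function.Exact f g)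
      (surj : Function.Surjective g) (hX : NF X) (hZ : NF Z) : NF Y

/-- retracts of direct sums of tensor powers of W -/
inductive TT : Ob k → Prop
  | pow (m : ℕ) : TT (Wp k m)
  | prod (X Y : Ob k) (hX : TT X) (hY : TT Y) : TT (prodO X Y)
  | retr (X Y : Ob k) (h : Rt X Y) (hY : TT Y) : TT X

/-! ### resolutions -/

/-- chain complexes of objects -/
structure Cx (k : Type) [Field k] where
  T : ℕ → Ob k
  d : ∀ i, (T (i + 1)).V →ₗ[k] (T i).V
  hd : ∀ i, IsHom (T (i + 1)) (T i) (d i)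

/-- chain maps -/
structure ChMap (A B : Cx k) where
  f : ∀ i, (A.T i).V →ₗ[k] (B.T i).V
  hf : ∀ i, IsHom (A.T i) (B.T i) (f i)
  comm : ∀ i v, B.d i (f (i + 1) v) = f i (A.d i v)

/-- e : A_0 → N makes A a resolution of N by tilting modules, with all kernels in NF -/
structure ResWith (N : Ob k) (A : Cx k) (e : (A.T 0).V →ₗ[k] N.V) : Prop where
  he : IsHom (A.T 0) N e
  surj : Function.Surjective e
  ex0 : Function.Exact (A.d 0) e
  ex : ∀ i, Function.Exact (A.d (i + 1)) (A.d i)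
  k0 : NF (kerO (A.T 0) N e he)
  k1 : ∀ i, NF (kerO (A.T (i + 1)) (A.T i) (A.d i) (A.hd i))
  tt : ∀ i, TT (A.T i)

/-- A is a resolution of N -/
def IsRes (N : Ob k) (A : Cx k) : Prop := ∃ e, ResWith N A e

/-- the cone of a chain map φ : A → B : degree 0 is B_0, degree i+1 is B_{i+1} x A_i -/
def coneT (A B : Cx k) : ℕ → Ob k
  | 0 => B.T 0
  | i + 1 => prodO (B.T (i + 1)) (A.T i)

/-- the differential of the cone: (b, a) ↦ d b + φ a in degree 1, (d b + φ a, - d a) above -/
def coned (A B : Cx k) (φ : ChMap A B) : ∀ i, (coneT A B (i + 1)).V →ₗ[k] (coneT A B i).V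
  | 0 => (B.d 0).coprod (φ.f 0)
  | i + 1 => ((B.d (i + 1)).coprod (φ.f (i + 1))).prod
      (-(A.d i ∘ₗ LinearMap.snd k (B.T (i + 2)).V (A.T (i + 1)).V))

omit [IsAlgClosed k] in
theorem coned_zero (A B : Cx k) (φ : ChMap A B) (b : (B.T 1).V) (a : (A.T 0).V) :
    coned A B φ 0 (b, a) = B.d 0 b + φ.f 0 a := rfl

omit [IsAlgClosed k] in
theorem coned_succ (A B : Cx k) (φ : ChMap A B) (i : ℕ) (b : (B.T (i + 2)).V)
    (a : (A.T (i + 1)).V) :
    coned A B φ (i + 1) (b, a) = (B.d (i + 1) b + φ.f (i + 1) a, - A.d i a) := rfl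

omit [IsAlgClosed k] in
theorem prodO_ρ (X Y : Ob k) (g : SL2 k) (u : X.V) (v : Y.V) :
    (prodO X Y).ρ g (u, v) = (X.ρ g u, Y.ρ g v) := rfl

def cone (A B : Cx k) (φ : ChMap A B) : Cx k where
  T := coneT A B
  d := coned A B φ
  hd := fun i => by
    cases i with
    | zero =>
      rintro g ⟨b, a⟩
      show coned A B φ 0 ((B.T 1).ρ g b, (A.T 0).ρ g a) = (B.T 0).ρ g (coned A B φ 0 (b, a))
      rw [coned_zero, coned_zero, map_add, B.hd 0 g b, φ.hf 0 g a]
    | succ i =>
      rintro g ⟨b, a⟩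
      show coned A B φ (i + 1) ((B.T (i + 2)).ρ g b, (A.T (i + 1)).ρ g a) =
        (prodO (B.T (i + 1)) (A.T i)).ρ g (coned A B φ (i + 1) (b, a))
      rw [coned_succ, coned_succ, prodO_ρ, map_add, map_neg, B.hd (i + 1) g b, φ.hf (i + 1) g a,
        A.hd i g a]

/-- the inclusion of B in the cone -/
def coneInl (A B : Cx k) (φ : ChMap A B) : ChMap B (cone A B φ) where
  f := fun i => match i with
    | 0 => LinearMap.id
    | i + 1 => LinearMap.inl k (B.T (i + 1)).V (A.T i).V
  hf := fun i => by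
    cases i with
    | zero => exact fun g v => rfl
    | succ i =>
      intro g v
      show ((B.T (i + 1)).ρ g v, (0 : (A.T i).V)) = (prodO (B.T (i + 1)) (A.T i)).ρ g (v, 0)
      rw [prodO_ρ, map_zero]
  comm := fun i v => by
    cases i with
    | zero =>
      show coned A B φ 0 (v, 0) = B.d 0 v
      rw [coned_zero, map_zero, add_zero]
    | succ i =>
      show coned A B φ (i + 1) (v, 0) = (B.d (i + 1) v, (0 : (A.T i).V))
      rw [coned_succ, map_zero, map_zero, add_zero, neg_zero]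

/-- tW on maps -/
def tWmap {X Y : Ob k} (f : X.V →ₗ[k] Y.V) : (tW X).V →ₗ[k] (tW Y).V := f.prodMap f

omit [IsAlgClosed k] in
theorem tWmap_apply {X Y : Ob k} (f : X.V →ₗ[k] Y.V) (u v : X.V) :
    tWmap (X := X) (Y := Y) f (u, v) = (f u, f v) := rfl

omit [IsAlgClosed k] in
theorem tWmap_hom {X Y : Ob k} (f : X.V →ₗ[k] Y.V) (hf : IsHom X Y f) :
    IsHom (tW X) (tW Y) (tWmap f) := by
  rintro g ⟨u, v⟩
  rw [tW_ρ, tWmap_apply, tWmap_apply, tW_ρ]
  refine Prod.ext ?_ ?_
  · show f (g.1 0 0 • X.ρ g u + g.1 0 1 • X.ρ g v) =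
      g.1 0 0 • Y.ρ g (f u) + g.1 0 1 • Y.ρ g (f v)
    rw [map_add, map_smul, map_smul, hf g u, hf g v]
  · show f (g.1 1 0 • X.ρ g u + g.1 1 1 • X.ρ g v) =
      g.1 1 0 • Y.ρ g (f u) + g.1 1 1 • Y.ρ g (f v)
    rw [map_add, map_smul, map_smul, hf g u, hf g v]

/-- tW on complexes -/
def tWC (A : Cx k) : Cx k where
  T := fun i => tW (A.T i)
  d := fun i => tWmap (A.d i)
  hd := fun i => tWmap_hom _ (A.hd i)

omit [IsAlgClosed k] in
theorem phiT_aux (A B : Ob k) (F : (A.V × A.V) →ₗ[k] B.V) (hF : IsHom (tW A) B F)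
    (g : SL2 k) (w : A.V) :
    ((-(F ∘ₗ LinearMap.inr k A.V A.V)).prod (F ∘ₗ LinearMap.inl k A.V A.V)) (A.ρ g w) =
      (tW B).ρ g (((-(F ∘ₗ LinearMap.inr k A.V A.V)).prod (F ∘ₗ LinearMap.inl k A.V A.V)) w) := by
  have h : ∀ u v : A.V, F (g.1 0 0 • A.ρ g u + g.1 0 1 • A.ρ g v,
      g.1 1 0 • A.ρ g u + g.1 1 1 • A.ρ g v) = B.ρ g (F (u, v)) :=
    fun u v => hF g (u, v)
  have hx := h w 0
  have hy := h 0 w
  simp only [map_zero, smul_zero, add_zero, zero_add] at hx hy
  have l : ∀ (α β : k) (w : A.V), F (α • w, β • w) = α • F (w, 0) + β • F (0, w) := by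
    intro α β w
    rw [← map_smul, ← map_smul, ← map_add]
    congr 1
    simp
  rw [l] at hx hy
  show (-(F (0, A.ρ g w)), F (A.ρ g w, 0)) = (tW B).ρ g (-(F (0, w)), F (w, 0))
  rw [tW_ρ, map_neg, ← hx, ← hy]
  have hd := Matrix.det_fin_two g.1
  rw [g.2] at hd
  generalize F (A.ρ g w, 0) = P
  generalize F (0, A.ρ g w) = Q
  refine Prod.ext ?_ ?_
  · show -Q = g.1 0 0 • -(g.1 0 1 • P + g.1 1 1 • Q) + g.1 0 1 • (g.1 0 0 • P + g.1 1 0 • Q)
    have : -Q = -((g.1 0 0 * g.1 1 1 - g.1 0 1 * g.1 1 0) • Q) := by rw [← hd, one_smul]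
    rw [this]
    module
  · show P = g.1 1 0 • -(g.1 0 1 • P + g.1 1 1 • Q) + g.1 1 1 • (g.1 0 0 • P + g.1 1 0 • Q)
    have : P = (g.1 0 0 * g.1 1 1 - g.1 0 1 * g.1 1 0) • P := by rw [← hd, one_smul]
    nth_rewrite 1 [this]
    module

/-- the chain map A → B ⊗ W, w ↦ ι(w x) ⊗ y - ι(w y) ⊗ x obtained from ι : A ⊗ W → B -/
def phiT (A B : Cx k) (ι : ChMap (tWC A) B) : ChMap A (tWC B) where
  f := fun i => (-(ι.f i ∘ₗ LinearMap.inr k (A.T i).V (A.T i).V)).prod
    (ι.f i ∘ₗ LinearMap.inl k (A.T i).V (A.T i).V)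
  hf := fun i g w => phiT_aux (A.T i) (B.T i) (ι.f i) (ι.hf i) g w
  comm := fun i w => by
    have h : ∀ u v : (A.T (i + 1)).V, B.d i (ι.f (i + 1) (u, v)) = ι.f i (A.d i u, A.d i v) :=
      fun u v => ι.comm i (u, v)
    show (B.d i (-(ι.f (i + 1) (0, w))), B.d i (ι.f (i + 1) (w, 0))) =
      (-(ι.f i (0, A.d i w)), ι.f i (A.d i w, 0))
    rw [map_neg, h, h, map_zero]

/-- data for the recursive construction of the complexes K(n) -/
structure Trip (k : Type) [Field k] [IsAlgClosed k] where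
  A : Cx k
  B : Cx k
  ι : ChMap (tWC A) B

def Trip.next (X : Trip k) : Trip k where
  A := X.B
  B := cone X.A (tWC X.B) (phiT X.A X.B X.ι)
  ι := coneInl X.A (tWC X.B) (phiT X.A X.B X.ι)

/-- the complex K(0): k in degree 0 -/
def C0 (k : Type) [Field k] : Cx k where
  T := fun i => match i with
    | 0 => one k
    | _ + 1 => zer k
  d := fun _ => 0
  hd := fun i g v => by
    rw [LinearMap.zero_apply, LinearMap.zero_apply, map_zero]

def idC (A : Cx k) : ChMap A A where
  f := fun _ => LinearMap.id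
  hf := fun _ _ _ => rfl
  comm := fun _ _ => rfl

/-- (K(n), K(n+1), K(n) ⊗ W → K(n+1)) -/
def KT (k : Type) [Field k] [IsAlgClosed k] : ℕ → Trip k
  | 0 => ⟨C0 k, tWC (C0 k), idC _⟩
  | n + 1 => (KT k n).next

/-- the complex K(n) -/
def KC (k : Type) [Field k] [IsAlgClosed k] (n : ℕ) : Cx k := (KT k n).A

theorem KT_B (n : ℕ) : (KT k n).B = KC k (n + 1) := rfl

theorem KC_succ_succ (n : ℕ) : KC k (n + 2) =
    cone (KC k n) (tWC (KC k (n + 1))) (phiT (KC k n) (KC k (n + 1)) (KT k n).ι) := rfl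

/-! ### coordinates -/

/-- coordinates on a complex: functions of (S, T) -/
def Coord (A : Cx k) : Type := ∀ b, (A.T b).V →ₗ[k] (Finset ℕ → Finset ℕ → k)

open Classical in
/-- coordinates on K(0) -/
noncomputable def co0 : Coord (C0 k) := fun b => match b with
  | 0 => LinearMap.toSpanSingleton k (Finset ℕ → Finset ℕ → k)
      (fun S T => if S = ∅ ∧ T = ∅ then 1 else 0)
  | _ + 1 => 0

open Classical in
/-- coordinates on A ⊗ W, A having n places: the last place is n -/
noncomputable def coW (n : ℕ) (A : Cx k) (c : Coord A) : Coord (tWC A) := fun b =>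
  { toFun := fun w S T => if n ∈ T then c b w.2 S (T.erase n) else c b w.1 S T
    map_add' := fun u v => by
      funext S T
      simp only [Pi.add_apply]
      split_ifs
      · show c b (u.2 + v.2) S (T.erase n) = _
        rw [map_add]
        rfl
      · show c b (u.1 + v.1) S T = _
        rw [map_add]
        rfl
    map_smul' := fun a u => by
      funext S T
      simp only [Pi.smul_apply, RingHom.id_apply]
      split_ifs
      · show c b (a • u.2) S (T.erase n) = _
        rw [map_smul]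
        rfl
      · show c b (a • u.1) S T = _
        rw [map_smul]
        rfl }

open Classical in
/-- the contribution of A to the coordinates of the cone: n is added to S -/
noncomputable def coS (n : ℕ) (A : Cx k) (c : Coord A) (b : ℕ) :
    (A.T b).V →ₗ[k] (Finset ℕ → Finset ℕ → k) where
  toFun := fun w S T => if n ∈ S then c b w (S.erase n) T else 0
  map_add' := fun u v => by
    funext S T
    simp only [Pi.add_apply, map_add]
    split_ifs <;> simp
  map_smul' := fun a u => by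
    funext S T
    simp only [Pi.smul_apply, map_smul, RingHom.id_apply]
    split_ifs <;> simp

/-- coordinates on the cone of A → B; A has n places, B has n + 2 places -/
noncomputable def coC (n : ℕ) (A B : Cx k) (φ : ChMap A B) (cA : Coord A) (cB : Coord B) :
    Coord (cone A B φ) := fun b => match b with
  | 0 => cB 0
  | b + 1 => (cB (b + 1)).coprod (coS n A cA b)

/-- coordinates on K(n) and K(n+1) -/
noncomputable def coT : ∀ n, Coord (KT k n).A × Coord (KT k n).B
  | 0 => (co0, coW 0 (C0 k) co0)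
  | n + 1 => ((coT n).2, coC n (KT k n).A (tWC (KT k n).B) (phiT (KT k n).A (KT k n).B (KT k n).ι)
      (coT n).1 (coW (n + 1) (KT k n).B (coT n).2))

/-- coordinates on K(n) -/
noncomputable def co (n b : ℕ) : ((KC k n).T b).V →ₗ[k] (Finset ℕ → Finset ℕ → k) := (coT n).1 b

/-! ### further definitions used in the statements -/

/-- multiplication by the form h of degree b on forms of degree a -/
def mulH (a b : ℕ) (h : (nab k b).V) : (nab k a).V →ₗ[k] (nab k (a + b)).V where
  toFun f := ⟨f.1 * h.1, homF_mul f.2 h.2⟩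
  map_add' u v := Subtype.ext (add_mul u.1 v.1 h.1)
  map_smul' c u := Subtype.ext (smul_mul_assoc c u.1 h.1)

/-- multiplication by x -/
def xm (a : ℕ) : (nab k a).V →ₗ[k] (nab k (a + 1)).V := mulH a 1 (mm k 1 0)

/-- multiplication by y -/
def ym (a : ℕ) : (nab k a).V →ₗ[k] (nab k (a + 1)).V := mulH a 1 (mm k 1 1)

/-- (u, v) ↦ x u + y v -/
def mW (k : Type) [Field k] [IsAlgClosed k] (a : ℕ) :
    (tW (nab k a)).V →ₗ[k] (nab k (a + 1)).V := (xm a).coprod (ym a)

/-- f ↦ (- y f, x f) -/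
def jW (k : Type) [Field k] [IsAlgClosed k] (a : ℕ) :
    (nab k a).V →ₗ[k] (tW (nab k (a + 1))).V := (-(ym a)).prod (xm a)

/-- 0 → X → Y → Z → 0 is exact for some equivariant maps -/
def ShortEx (X Y Z : Ob k) : Prop :=
  ∃ (f : X.V →ₗ[k] Y.V) (g : Y.V →ₗ[k] Z.V), IsHom X Y f ∧ IsHom Y Z g ∧
    Function.Injective f ∧ Function.Exact f g ∧ Function.Surjective g

/-- vanishing of the first cohomology, in the form in which it is used -/
def H1 (N : Ob k) : Prop := ∀ (M : Ob k) (i : N.V →ₗ[k] M.V), IsHom N M i →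
  Function.Injective i → ∀ v : M.V, (∀ g, M.ρ g v - v ∈ LinearMap.range i) →
    ∃ n, ∀ g, M.ρ g (v - i n) = v - i n

/-- Hom(T, -) is exact on sequences with good kernel -/
def Lift (T : Ob k) : Prop := ∀ (N' N N'' : Ob k) (i : N'.V →ₗ[k] N.V) (π : N.V →ₗ[k] N''.V),
  IsHom N' N i → IsHom N N'' π → Function.Injective i → Function.Exact i π →
    Function.Surjective π → NF N' → ∀ φ : T.V →ₗ[k] N''.V, IsHom T N'' φ →
      ∃ ψ : T.V →ₗ[k] N.V, IsHom T N ψ ∧ ∀ v, π (ψ v) = φ v

/-- the tilting module Q_r, 1 ≤ r ≤ p - 1 -/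
noncomputable def Qr (k : Type) [Field k] [IsAlgClosed k] (p r : ℕ) : Ob k :=
  blk (tens (nab k (p - 1)) (nab k r)) ((r : k) ^ 2)

/-- St ⊗ ∇(r) -/
noncomputable def MM (k : Type) [Field k] [IsAlgClosed k] (p r : ℕ) : Ob k :=
  tens (nab k (p - 1)) (nab k r)

/-- the vector x^(p-1) ⊗ x^r of St ⊗ ∇(r) -/
noncomputable def q0 (k : Type) [Field k] [IsAlgClosed k] (p r : ℕ) : (MM k p r).V :=
  (mm k (p - 1) 0) ⊗ₜ[k] (mm k r 0)

/-- the data on a module Q with which F_lambda(Q ⊗ Y^F) is computed -/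
def QData (Q : Ob k) (m : ℤ) : Prop := ∃ (q q' : Q.V) (m' : ℤ),
  q ∈ invs Q m ∧ q' ∈ invs Q m' ∧ q ≠ 0 ∧ (q' = 0 ∨ LinearIndependent k ![q, q']) ∧
  q' ∈ LinearMap.range (ff Q 1) ∧
  (∀ z, ee Q 1 z = 0 → ∃ a b : k, z = a • q + b • q') ∧
  (∀ i, 1 ≤ i → ff Q i q ∈ LinearMap.range (ff Q 1))

section Theta
variable (p : ℕ) [Fact p.Prime] [CharP k p]

/-- Q ⊗ (-)^F on maps -/
noncomputable def thMap (Q : Ob k) {X Y : Ob k} (f : X.V →ₗ[k] Y.V) :
    (tens Q (fr p X)).V →ₗ[k] (tens Q (fr p Y)).V :=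
  TensorProduct.map (LinearMap.id : Q.V →ₗ[k] Q.V) f

omit [IsAlgClosed k] in
theorem thMap_hom (Q : Ob k) {X Y : Ob k} (f : X.V →ₗ[k] Y.V) (hf : IsHom X Y f) :
    IsHom (tens Q (fr p X)) (tens Q (fr p Y)) (thMap p Q (X := X) (Y := Y) f) := by
  intro g v
  have : (thMap p Q (X := X) (Y := Y) f) ∘ₗ (tens Q (fr p X)).ρ g =
      (tens Q (fr p Y)).ρ g ∘ₗ (thMap p Q (X := X) (Y := Y) f) := by
    apply TensorProduct.ext'
    intro a b
    show (Q.ρ g a) ⊗ₜ[k] (f ((fr p X).ρ g b)) = (Q.ρ g a) ⊗ₜ[k] ((fr p Y).ρ g (f b))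
    congr 1
    exact hf _ b
  exact LinearMap.congr_fun this v

/-- Q ⊗ (-)^F on complexes -/
noncomputable def thC (Q : Ob k) (A : Cx k) : Cx k where
  T := fun i => tens Q (fr p (A.T i))
  d := fun i => thMap p Q (X := A.T (i + 1)) (Y := A.T i) (A.d i)
  hd := fun i => thMap_hom p Q _ (A.hd i)

end Theta

/-- the complex with N in degree 0 only -/
def pt (N : Ob k) : Cx k where
  T := fun i => match i with
    | 0 => N
    | _ + 1 => zer k
  d := fun _ => 0
  hd := fun i g v => by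
    rw [LinearMap.zero_apply, LinearMap.zero_apply, map_zero]

/-- the numbers c_i(v, w) -/
structure IsCC (p : ℕ) (c : ℕ → ℕ → ℕ → ℕ) : Prop where
  lt : ∀ i v w, v < p → c i v w = if i = 0 ∧ v = w then 1 else 0
  mul : ∀ i m w, 1 ≤ m → c i (p * m) w = if w % p = 0 then c i m (w / p) else 0
  zero : ∀ m r w, 1 ≤ m → 1 ≤ r → r < p → c 0 (p * m + r) w =
    if w % p = r then c 0 m (w / p) else 0
  succ : ∀ i m r w, 1 ≤ m → 1 ≤ r → r < p → c (i + 1) (p * m + r) w =
    (if w % p = r then c (i + 1) m (w / p) else 0) + c i (p * m - r) w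

/-- (S, T) is a possible index in degree b of K(n): S a set of b pairwise disjoint adjacent
pairs {i, i+1} (given by i), T a set of other places -/
def okk (n b : ℕ) (S T : Finset ℕ) : Prop :=
  S.card = b ∧ (∀ i ∈ S, i + 1 < n ∧ i + 1 ∉ S ∧ i ∉ T ∧ i + 1 ∉ T) ∧ T ⊆ Finset.range n

/-- the places not covered by S -/
def ZS (n : ℕ) (S : Finset ℕ) : Finset ℕ := Finset.range n \ (S ∪ S.image (· + 1))

/-- the cup on the places i, i+1 (adjoint of cap) -/
def cupc (i : ℕ) (h : Finset ℕ → k) : Finset ℕ → k := fun T =>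
  (if i + 1 ∈ T ∧ i ∉ T then h (T.erase (i + 1)) else 0) -
    (if i ∈ T ∧ i + 1 ∉ T then h (T.erase i) else 0)

end Pool.Agent.Sp49.Three
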