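import Mathlib
import Pool.Agent.Lib.MP_49c83e_al.Three.Defs

/-!
MP_49c83e_al, Theorem III: the statements of the pieces.  Every docstring contains a complete
proof.  Inputs = the statements that may be taken as hypotheses
(`theorem piece (hA1 : S_A1 k) ... : S_X k`).
W = natural module with basis x, y; tW X = X ⊗ W, (u, v) = u ⊗ x + v ⊗ y;
x(t) = xx t, y(t) = yy t, h(s) = hh s; E^{(i)} = ee X i, F^{(i)} = ff X i, E = E^{(1)}, F = F^{(1)}.
-/

namespace Pool.Agent.Sp49.Three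

open Matrix TensorProduct

section NoP
variable (k : Type) [Field k] [IsAlgClosed k]

/-! ## Block A : rational SL_2(k)-modules -/

/-- [A1] finite polynomial expansions of x(t), y(t) with a uniform bound.
PROOF. For one vector use `xx_pev`, `yy_pev`, `exists_bound`, `pev_eq_sum` (the coefficients of
`cof (fun t => X.ρ (xx t) v)` are `ee X i v` by definition). The set of v for which a given N works
is a submodule, it grows with N; X.V is finite dimensional: take the maximum of the bounds of a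
finite generating set (`Module.Finite.fg_top`), and `Submodule.span_induction`. -/
def S_A1 : Prop := ∀ X : Ob k, ∃ N : ℕ, ∀ v : X.V,
  (∀ t, X.ρ (xx t) v = ∑ i ∈ Finset.range N, t ^ i • ee X i v) ∧
  (∀ t, X.ρ (yy t) v = ∑ i ∈ Finset.range N, t ^ i • ff X i v) ∧
  (∀ i, N ≤ i → ee X i v = 0 ∧ ff X i v = 0)

/-- [A2] E^{(0)} = F^{(0)} = 1; equivariant maps commute with E^{(i)}, F^{(i)}, and preserve
weight spaces, `invs`, `NN`; they commute with hop and the Casimir operator.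
PROOF. `cof_zero_eq` (xx 0 = 1, yy 0 = 1); `cof_map`; for NN: f(y(t)v - v) = y(t)f(v) - f(v). -/
def S_A2 : Prop :=
  (∀ (X : Ob k) v, ee X 0 v = v ∧ ff X 0 v = v) ∧
  ∀ (X Y : Ob k) (f : X.V →ₗ[k] Y.V), IsHom X Y f →
    (∀ i v, f (ee X i v) = ee Y i (f v) ∧ f (ff X i v) = ff Y i (f v)) ∧
    (∀ a, ∀ v ∈ wt X a, f v ∈ wt Y a) ∧ (∀ a, ∀ v ∈ invs X a, f v ∈ invs Y a) ∧
    (∀ v ∈ NN X, f v ∈ NN Y) ∧ (∀ v, f (hop X v) = hop Y (f v)) ∧
    (∀ v, f (Cas X v) = Cas Y (f v))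

/-- [A3] E^{(i)}E^{(j)} = binom(i+j, i) E^{(i+j)}, same for F; in particular E^n = n! E^{(n)}.
PROOF. xx s * xx t = xx (s + t). For fixed s: x(s)x(t)v is polynomial in t with coefficients
x(s)E^{(j)}v; on the other hand it is sum_n (s+t)^n E^{(n)}v, whose t^j coefficient is
sum_n binom(n,j) s^{n-j} E^{(n)}v; so x(s)E^{(j)}v = sum_i s^i binom(i+j,j) E^{(i+j)}v for all s,
and uniqueness (`ee_eq`, or `pev_inj`) gives the claim. -/
def S_A3 : Prop := ∀ (X : Ob k) (i j : ℕ) (v : X.V),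
  ee X i (ee X j v) = ((i + j).choose i : k) • ee X (i + j) v ∧
  ff X i (ff X j v) = ((i + j).choose i : k) • ff X (i + j) v ∧
  ((ee X 1) ^ i : Module.End k X.V) v = (i.factorial : k) • ee X i v ∧
  ((ff X 1) ^ i : Module.End k X.V) v = (i.factorial : k) • ff X i v

/-- [A4] weights of E^{(i)}v, F^{(i)}v.
PROOF. hh s * xx t = xx (s^2 t) * hh s, so for v of weight a:
h(s)x(t)v = s^a x(s^2 t)v = sum_i t^i s^{a+2i} E^{(i)}v; compare coefficients of t^i with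
sum_i t^i h(s)E^{(i)}v (uniqueness `pev_inj`; s is fixed, t varies). Same for y with
hh s * yy t = yy (s^{-2} t) * hh s. -/
def S_A4 : Prop := ∀ (X : Ob k) (a : ℤ) (i : ℕ) (v : X.V), v ∈ wt X a →
  ee X i v ∈ wt X (a + 2 * i) ∧ ff X i v ∈ wt X (a - 2 * i)

/-- [A5] SL_2(k) is generated by the x(t), y(t). PROOF. g = !![a,b;c,d], if c /= 0 then
g = x((a-1)/c) y(c) x((d-1)/c) (use ad - bc = 1). If c = 0 then a /= 0 and y(1) g has lower left
entry a /= 0; g = y(-1) (y(1) g). -/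
def S_A5 : Prop :=
  (∀ S : Submonoid (SL2 k), (∀ t, xx t ∈ S) → (∀ t, yy t ∈ S) → ∀ g, g ∈ S) ∧
  (∀ (X Y : Ob k) (f : X.V →ₗ[k] Y.V), (∀ t v, f (X.ρ (xx t) v) = Y.ρ (xx t) (f v)) →
    (∀ t v, f (X.ρ (yy t) v) = Y.ρ (yy t) (f v)) → IsHom X Y f) ∧
  (∀ (X : Ob k) (v : X.V), (∀ t, X.ρ (xx t) v = v) → (∀ t, X.ρ (yy t) v = v) →
    ∀ g, X.ρ g v = v)

/-- [A6] Laurent polynomials with values in a submodule have coefficients in the submodule.
PROOF. Choose M with a + M >= 0 on the support; multiply by s^M: the polynomial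
sum_a s^{a+M} c a has values in S for all s /= 0 (infinitely many); `coeff_mem_of_infinite`. -/
def S_A6 : Prop := ∀ (V : Type) [AddCommGroup V] [Module k V] (S : Submodule k V) (c : ℤ →₀ V),
  (∀ s : kˣ, (c.sum fun a w => ((s ^ a : kˣ) : k) • w) ∈ S) → ∀ a, c a ∈ S

/-- [A7] every vector is a sum of weight vectors, the sum is unique, and stable submodules
contain the weight components. Inputs: A6.
PROOF. hh s = xx s * yy (-1/s) * xx s * (xx (-1) * yy 1 * xx (-1)). So s ↦ h(s)v is a Laurent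
polynomial (by `IsPoly` closure: for w = xx(-1) yy 1 xx(-1) v, x(s)w polynomial in s, then
y(-1/s) of each coefficient is polynomial in 1/s, then x(s) of each coefficient is polynomial in
s). Say h(s)v = sum_a s^a v_a. From h(u)h(s) = h(us): sum_a s^a h(u)v_a = sum_a s^a u^a v_a for all
s, hence h(u)v_a = u^a v_a by A6 with S = 0 (applied to the difference). s = 1: v = sum v_a.
Uniqueness: if sum c_a = 0 with c_a of weight a then sum_a s^a c_a = h(s) 0 = 0 for all s: A6.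
Third part: if S is stable under all h(s) and sum_a c_a in S, then sum_a s^a c_a in S: A6. -/
def S_A7 : Prop := ∀ (X : Ob k),
  (∀ v, ∃ c : ℤ →₀ X.V, (∀ a, c a ∈ wt X a) ∧ (c.sum fun _ w => w) = v) ∧
  (∀ c : ℤ →₀ X.V, (∀ a, c a ∈ wt X a) → (c.sum fun _ w => w) = 0 → c = 0) ∧
  (∀ (S : Submodule k X.V), (∀ s, ∀ v ∈ S, X.ρ (hh s) v ∈ S) → ∀ c : ℤ →₀ X.V,
    (∀ a, c a ∈ wt X a) → (c.sum fun _ w => w) ∈ S → ∀ a, c a ∈ S)

/-- [A8] the commutation rule of x(t) and F, and of y(t) and E; hop acts on the weight space of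
weight a by a. Inputs: A1, A3, A4, A7.
PROOF. For 1 + ts /= 0: xx t * yy s = yy (s/(1+ts)) * hh (1+ts) * xx (t/(1+ts)). Let v in X and
write E^{(i)}v = sum_mu v_{i,mu} (weight vectors, A7). Then with N large (i, j < N, |mu| <= N..)
(1+ts)^M x(t)y(s)v = sum_{i,mu,j} t^i s^j (1+ts)^{M - i + mu - j} F^{(j)} v_{i,mu}, for all s with
1 + ts /= 0 (infinitely many s), all exponents M - i + mu - j natural numbers for M large. Both
sides are polynomials in s (t is fixed); compare the coefficients of s^1: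
left: x(t)F v + M t x(t)v. Right: j = 1: sum t^i F v_{i,mu} = F x(t)v; j = 0:
sum_{i,mu} t^i (M - i + mu) t v_{i,mu} = M t x(t)v + t H' x(t)v - t sum_i i t^i E^{(i)}v where H' =
the operator acting by mu on the weight space mu. And sum_i i t^{i-1} E^{(i)}v = E x(t)v
(E E^{(i-1)} = i E^{(i)}, A3). So x(t)Fv = F x(t)v + t H' x(t)v - t^2 E x(t)v. (The coefficient of
s^1 of P(s)(1+ts)^m for a vector polynomial P: P_1 + m t P_0.) The t-coefficient of this identity: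
E F v = F E v + H' v, so H' = hop. The second rule in the same way from
yy t * xx s = xx (s/(1+ts)) * hh ((1+ts)^{-1}) * yy (t/(1+ts)), or by transport with the
automorphism g ↦ w g w^{-1} (i.e. apply the first rule to the object X' with ρ' g = ρ (w g w⁻¹),
w = !![0,1;-1,0], w xx t w^{-1} = yy (-t), w hh s w^{-1} = hh (s^{-1})). -/
def S_A8 : Prop := ∀ (X : Ob k),
  (∀ (a : ℤ), ∀ v ∈ wt X a, hop X v = (a : k) • v) ∧
  (∀ t v, X.ρ (xx t) (ff X 1 v) = ff X 1 (X.ρ (xx t) v) + t • hop X (X.ρ (xx t) v)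
    - t ^ 2 • ee X 1 (X.ρ (xx t) v)) ∧
  (∀ t v, X.ρ (yy t) (ee X 1 v) = ee X 1 (X.ρ (yy t) v) - t • hop X (X.ρ (yy t) v)
    - t ^ 2 • ff X 1 (X.ρ (yy t) v))

/-- [A9] the Casimir operator commutes with the group; sl_2 relations. Inputs: A1, A3, A4, A5,
A7, A8.
PROOF. x(t)E = Ex(t) (coefficients of x(t)x(s) = x(s)x(t)). x(t)H = (H - 2tE)x(t): on a weight
vector v of weight a: x(t)Hv = a x(t)v = sum a t^i E^{(i)}v, H x(t)v = sum (a+2i) t^i E^{(i)}v, and
2tE x(t)v = sum 2 i t^i E^{(i)}v (A3). Then, as operators, with E F H of A8: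
x(t)C = [4(F + tH - t^2 E)E + (H + 1 - 2tE)^2] x(t) and expanding with EH = HE - 2E (weights):
= [4FE + 4tHE - 4t^2 E^2 + (H+1)^2 - 2t(H+1)E - 2tE(H+1) + 4t^2 E^2] x(t)
= [C + 4tHE - 2t(2HE)] x(t) = C x(t)   (EH + HE + 2E = 2HE). Same for y(t):
y(t)F = F y(t), y(t)H = (H + 2tF) y(t), y(t)E = (E - tH - t^2 F) y(t), and C = 4FE + (H+1)^2 =
4EF + (H-1)^2. Then A5 (second part with f = Cas X). -/
def S_A9 : Prop := ∀ (X : Ob k),
  (∀ g v, Cas X (X.ρ g v) = X.ρ g (Cas X v)) ∧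
  (∀ v, hop X (ee X 1 v) = ee X 1 (hop X v) + (2 : k) • ee X 1 v) ∧
  (∀ v, hop X (ff X 1 v) = ff X 1 (hop X v) - (2 : k) • ff X 1 v)

/-- [A10] a vector fixed by all x(t): weight negative implies zero, weight zero implies invariant.
Inputs: A5.
PROOF. For s /= 0: yy s = xx (1/s) * hh (1/s) * !![0,-1;1,0] * xx (1/s). Let w = !![0,-1;1,0].
For v in invs X a: y(s)v = x(1/s)h(1/s)w v, and w v has weight -a
(hh s * w = w * hh (s^{-1})), so y(s)v = s^a x(1/s) (w v). The left side is a polynomial in s,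
x(1/s)(wv) is a polynomial in 1/s. If a < 0 multiply by s^M (M large): the polynomials
s^M y(s)v = s^{M+a} sum_i s^{-i} E^{(i)}(wv) agree for all s /= 0, the left one has only exponents
>= M, the right one only exponents <= M + a < M, so both are zero; the coefficient of s^M is
F^{(0)}v = v, so v = 0. If a = 0: only the exponent M can occur: y(s)v = F^{(0)}v = v for all s
(all F^{(i)}v, i >= 1, vanish). Then A5 (third part). -/
def S_A10 : Prop := ∀ (X : Ob k) (a : ℤ) (v : X.V), v ∈ invs X a →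
  (a < 0 → v = 0) ∧ (a = 0 → ∀ g, X.ρ g v = v)

/-! ## Block B : the modules ∇(a) -/

/-- [B1] the monomials are a basis, of weights a - 2j.
PROOF. Independence: if sum c_i s^{a-i} t^i = 0 for all s, t put s = 1 and use that a polynomial
with infinitely many zeros vanishes (or `Polynomial.funext`). hh s: (σ,τ) ↦ (sσ, s^{-1}τ) multiplies
the monomial by s^{a-j} s^{-j}. Weight vectors: expand in the basis; s^{a-2i} c_i = s^w c_i for all s,
and s ↦ s^n is not the constant 1 for n /= 0 (k infinite). -/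
def S_B1 : Prop := ∀ a : ℕ,
  (∃ b : Module.Basis (Fin (a + 1)) k (nab k a).V, ∀ i : Fin (a + 1), b i = mm k a i) ∧
  Module.finrank k (nab k a).V = a + 1 ∧
  (∀ i, i ≤ a → mm k a i ∈ wt (nab k a) ((a : ℤ) - 2 * i) ∧ mm k a i ≠ 0) ∧
  (∀ (w : ℤ) (v : (nab k a).V), v ∈ wt (nab k a) w → v = 0 ∨
    ∃ i, i ≤ a ∧ (a : ℤ) - 2 * i = w ∧ ∃ c : k, v = c • mm k a i)

/-- [B2] E^{(i)}, F^{(i)} on monomials.
PROOF. x(t): f(s,τ) ↦ f(s, tσ+τ): σ^{a-j}(τ + tσ)^j = sum_i t^i binom(j,i) σ^{a-j+i} τ^{j-i};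
y(t): (σ + tτ)^{a-j} τ^j. Use `ee_eq`, `ff_eq` with the finitely supported c. -/
def S_B2 : Prop := ∀ (a j i : ℕ), j ≤ a →
  ee (nab k a) i (mm k a j) = (j.choose i : k) • mm k a (j - i) ∧
  ff (nab k a) i (mm k a j) = ((a - j).choose i : k) • mm k a (j + i)

/-- [B3] the Casimir operator acts on ∇(a) by (a+1)^2; U^+-fixed weight vectors of ∇(a) are the
multiples of x^a. Inputs: A8, B1, B2.
PROOF. On mm j (weight a-2j): FE mm j = j (a-j+1) mm j (j >= 1; 0 if j = 0) and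
4j(a-j+1) + (a-2j+1)^2 = (a+1)^2. Second: v = sum c_j mm j; the coefficient of mm 0 ... : for a
weight vector v = c mm j with j > 0 E^{(j)}v = c mm 0, which must be 0. -/
def S_B3 : Prop := ∀ (a : ℕ),
  (∀ v : (nab k a).V, Cas (nab k a) v = (((a : k) + 1) ^ 2) • v) ∧
  (∀ (w : ℤ) (v : (nab k a).V), v ∈ invs (nab k a) w → v = 0 ∨
    (w = a ∧ ∃ c : k, v = c • mm k a 0))

/-- [B4] 0 → ∇(a) → ∇(a+1) ⊗ W → ∇(a+2) → 0, and ∇(0) ⊗ W = ∇(1). Inputs: B1.
PROOF. Equivariance of mW: (g f)(v) = f(v g), x(vg) = g00 s + g10 t, ... direct. jW: as phiT_aux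
(determinant 1). jW injective: x f = 0 implies f = 0 (f vanishes where s /= 0; compare coefficients).
mW surjective: monomials: mm (a+1) i = x mm a i (i <= a), mm (a+1) (a+1) = y mm a a.
Exact: mW (jW f) = -xyf + yxf = 0; if x u + y v = 0, write u, v in coefficients u_i, v_i
(i <= a+1): u_0 = 0, u_{i+1} + v_i = 0, v_{a+1} = 0: f = sum_{i<=a} v_i mm a i. -/
def S_B4 : Prop :=
  (∀ a, IsHom (tW (nab k a)) (nab k (a + 1)) (mW k a) ∧ Function.Surjective (mW k a)) ∧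
  (∀ a, IsHom (nab k a) (tW (nab k (a + 1))) (jW k a) ∧ Function.Injective (jW k a) ∧
    Function.Exact (jW k a) (mW k (a + 1))) ∧
  Function.Injective (mW k 0)

/-- [B5] 0 → ∇(a) ⊗ ∇(b) → ∇(a+1) ⊗ ∇(b+1) → ∇(a+b+2) → 0. Inputs: B1.
PROOF. maps f ⊗ g ↦ xf ⊗ yg - yf ⊗ xg and multiplication. Equivariance: det g = 1.
In the bases mm i ⊗ mm j: the first map is mm i ⊗ mm j ↦ mm i ⊗ mm (j+1) - mm (i+1) ⊗ mm j, the second
mm i ⊗ mm j ↦ mm (i+j). The second is surjective and the composition is 0; modulo the image of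
the first map every mm i ⊗ mm j with i < a+1, j >= 1 is equal to mm (i+1) ⊗ mm (j-1), so the cokernel of
the first map has dimension <= a+b+3 (representatives mm i ⊗ mm 0, mm (a+1) ⊗ mm j), and maps onto
∇(a+b+2) of dimension a+b+3: exact in the middle. Injectivity by dimensions:
(a+1)(b+1) + (a+b+3) = (a+2)(b+2). -/
def S_B5 : Prop := ∀ a b, ShortEx (tens (nab k a) (nab k b)) (tens (nab k (a + 1)) (nab k (b + 1)))
  (nab k (a + b + 2))

/-- [B6] if binom(m+n, i) /= 0 in k for all i then ∇(m+n) is a retract of ∇(m) ⊗ W^{⊗ n}.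
Inputs: B1, B4.
PROOF. mu_n : tWn n (∇(m)) → ∇(m+n) iterated mW (recursion on n, equivariant by B4). For
w = (α, β) let P_0(w) = (αx+βy)^m in ∇(m), P_{n+1}(w) = (α P_n(w), β P_n(w)) in tWn (n+1); then
mu_n(P_n(w)) = (αx+βy)^{m+n} and g P_n(w) = P_n(g w) with g w = (g00 α + g01 β, g10 α + g11 β).
Gam := span of all P_n(w) is stable under SL_2(k). P_n(α,β) is a polynomial in α, β homogeneous
of degree m+n, so Gam has dimension <= m+n+1 (it is spanned by the coefficients; or: P_n(1,τ)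
polynomial of degree <= m+n in τ, and P_n(0,1) is its top coefficient). mu_n(Gam) contains the
coefficients binom(m+n,i) mm i of (x+τy)^{m+n} (`coeff_mem_of_infinite`), so mu_n : Gam → ∇(m+n) is
onto, hence bijective by dimensions; its inverse is equivariant: section i, retraction mu_n. -/
def S_B6 : Prop := ∀ m n : ℕ, (∀ i, i ≤ m + n → ((m + n).choose i : k) ≠ 0) →
  Rt (nab k (m + n)) (tWn n (nab k m))

/-! ## Block C : good filtrations, vanishing, lifting -/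

/-- [C1] formal properties of NF. Inputs: B4 (for the last one).
PROOF. iso: ext with a zero object (0 → 0 → Y → X → 0). tW: induction on NF X; zero clear; nab 0 by
mW k 0 (bijective, B4); nab (a+1): exact sequence B4 with a; ext: tW is exact (componentwise). -/
def S_C1 : Prop :=
  (∀ X Y : Ob k, Iso X Y → NF X → NF Y) ∧ NF (one k) ∧ NF (zer k) ∧
  (∀ X : Ob k, NF X → NF (tW X))

/-- [C2] H^1(∇(a)) = 0. Inputs: A1 - A5, A7, A10, B1, B2.
PROOF. v in M, gv - v in i∇(a) =: S for all g. S is stable. Write v = sum v_mu (A7);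
h(s)v - v = sum_{mu /= 0} (s^mu - 1)v_mu in S for all s; by A7 (third part, applied to S and the
vector h(s)v - v, choosing s with s^mu /= 1) v_mu in S for mu /= 0. So v_0 satisfies v - v_0 in S and
still gv_0 - v_0 in S. For j >= 1 E^{(j)}v_0 in S (coefficient of x(t)v_0 - v_0 in S), of weight 2j.
If a is odd all weights of S ≅ ∇(a) are odd, so E^{(j)}v_0 = 0 for all j >= 1. If a = 2b:
E^{(j)}v_0 = c_j i(mm a (b-j)) for 1 <= j <= b and 0 for j > b (B1). Replace v_0 by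
v_0 - c_b i(mm a b) (still of weight 0; E^{(b)} mm a b = mm a 0, B2): then E^{(b)}v_0 = 0. For
1 <= j < b: 0 = binom(b,j) E^{(b)}v_0 = E^{(b-j)}E^{(j)}v_0 = c_j E^{(b-j)} i(mm a (b-j)) = c_j i(mm a 0), so
c_j = 0. (b = 0: nothing to do.) Hence x(t)v_0 = v_0 for all t, weight 0: invariant by A10.
v - v_0 = i n in S. -/
def S_C2 : Prop := ∀ a, H1 (nab k a)

/-- [C3] H^1 vanishes on NF. Inputs: C2.
PROOF. Induction. zero: i = 0, so gv = v. ext (X, Y, Z, f, g): i : Y → M. Let S = range (i ∘ f), a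
stable submodule, M' = quo M S, and i' : Z → M' induced by i (for z = g y put i' z = class of i y;
well defined as ker g = range f; injective as i is; equivariant). gv - v in range i gives the
hypothesis for the class of v in M'; H1 Z: there is z = g y with the class of v - i y invariant, i.e.
h(v - i y) - (v - i y) in S = range (i ∘ f) for all h; H1 X applied to i ∘ f: n with v - i y - i f n
invariant. -/
def S_C3 : Prop := ∀ N : Ob k, NF N → H1 N

/-- [C4] lifting for tilting modules. Inputs: C1, C3.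
PROOF. Induction on TT. pow m by induction on m. m = 0: T = one k = k: φ(1) in N'' is
invariant; choose v in N with π v = φ(1); gv - v in ker π = range i; H1 N' gives n with v - i n
invariant; ψ(c) = c (v - i n). m+1: Lift T → Lift (tW T): given φ : T ⊗ W → N'' put
φ^ : T → N'' ⊗ W, φ^(w) = (- φ(0,w), φ(w,0)) (equivariant: `phiT_aux`). The sequence
tW N' → tW N → tW N'' is exact and tW N' in NF (C1), so there is an equivariant ψ^ : T → tW N with
tW π ∘ ψ^ = φ^. Put ψ(u,v) = (ψ^ u).2 - (ψ^ v).1; it is equivariant (direct computation with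
det g = 1) and π(ψ(u,v)) = (φ^ u).2 - (φ^ v).1 = φ(u,0) + φ(0,v) = φ(u,v).
prod: lift φ on both factors. retr: T retract of T' (i', r'): lift φ ∘ r' and compose with i'. -/
def S_C4 : Prop := ∀ T : Ob k, TT T → Lift T

/-- [C5] the usable form of lifting. Inputs: C4.
PROOF. N' = kerO f, N = X, N'' = sub Y (range f) (stable), π = f with values in the range, i the
inclusion. φ takes values in ker g = range f. -/
def S_C5 : Prop := ∀ (T X Y Z : Ob k) (f : X.V →ₗ[k] Y.V) (g : Y.V →ₗ[k] Z.V)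
  (hf : IsHom X Y f) (_ : IsHom Y Z g), TT T → Function.Exact f g → NF (kerO X Y f hf) →
  ∀ φ : T.V →ₗ[k] Y.V, IsHom T Y φ → (∀ v, g (φ v) = 0) →
    ∃ ψ : T.V →ₗ[k] X.V, IsHom T X ψ ∧ ∀ v, f (ψ v) = φ v

/-! ## Block D : tensor identities and tilting modules -/

/-- [D1] formal properties of Iso and Rt.
PROOF. direct. (Iso.symm: the inverse of an equivariant bijection is equivariant.) -/
def S_D1 : Prop :=
  (∀ X : Ob k, Iso X X) ∧ (∀ X Y : Ob k, Iso X Y → Iso Y X) ∧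
  (∀ X Y Z : Ob k, Iso X Y → Iso Y Z → Iso X Z) ∧
  (∀ X Y : Ob k, Iso X Y → Rt X Y) ∧ (∀ X Y Z : Ob k, Rt X Y → Rt Y Z → Rt X Z) ∧
  (∀ X Y Z : Ob k, Iso X Y → Iso (tens X Z) (tens Y Z)) ∧
  (∀ X Y Z : Ob k, Iso X Y → Iso (tens Z X) (tens Z Y)) ∧
  (∀ X Y Z : Ob k, Rt X Y → Rt (tens X Z) (tens Y Z)) ∧
  (∀ X Y Z : Ob k, Rt X Y → Rt (tens Z X) (tens Z Y)) ∧
  (∀ X Y : Ob k, Iso X Y → Iso (tW X) (tW Y)) ∧ (∀ X Y : Ob k, Rt X Y → Rt (tW X) (tW Y))

/-- [D2] tensor identities. PROOF. `TensorProduct.assoc`, `TensorProduct.comm`,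
`TensorProduct.rid`, `TensorProduct.prodRight` (X ⊗ (Y × Z) = X⊗Y × X⊗Z), `Equiv.prodProdProdComm`,
and (u,v) ↦ x ⊗ u + y ⊗ v for tW X = ∇(1) ⊗ X (B1: x = mm 1 0, y = mm 1 1 basis of ∇(1),
g x = g00 x + g10 y, g y = g01 x + g11 y); equivariance on pure tensors. -/
def S_D2 : Prop :=
  (∀ X Y Z : Ob k, Iso (tens (tens X Y) Z) (tens X (tens Y Z))) ∧
  (∀ X Y : Ob k, Iso (tens X Y) (tens Y X)) ∧
  (∀ X : Ob k, Iso (tens X (one k)) X) ∧ Iso (one k) (nab k 0) ∧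
  (∀ X Y : Ob k, Iso (tens X (tW Y)) (tW (tens X Y))) ∧
  (∀ X Y Z : Ob k, Iso (tens X (prodO Y Z)) (prodO (tens X Y) (tens X Z))) ∧
  (∀ X Y : Ob k, Iso (tW (prodO X Y)) (prodO (tW X) (tW Y))) ∧
  (∀ X : Ob k, Iso (tW X) (tens (nab k 1) X)) ∧
  (∀ (X : Ob k) (n : ℕ), Iso (tens X (tWn n (one k))) (tWn n X)) ∧
  (∀ (X Y : Ob k) (n : ℕ), Iso (tens (tWn n X) Y) (tWn n (tens X Y)))

/-- [D3] TT is closed under isomorphism, tW, tWn, contains ∇(0). Inputs: D1, D2.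
PROOF. iso: Rt. tW: induction on TT: tW (Wp m) = Wp (m+1) definitionally; prod by D2; retr by D1. -/
def S_D3 : Prop :=
  (∀ X Y : Ob k, Iso X Y → TT X → TT Y) ∧ (∀ X : Ob k, TT X → TT (tW X)) ∧
  (∀ (X : Ob k) (n : ℕ), TT X → TT (tWn n X)) ∧ TT (nab k 0) ∧ TT (zer k)

/-! ## Block G : resolutions -/

/-- [G1] NF modules which are in TT have the trivial resolution; isomorphic modules.
Inputs: C1, D3.
PROOF. pt N, e = id: kernels of the identity and of maps between zero modules are zero objects. For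
Iso compose e with the isomorphism: the kernel does not change (as a subspace). -/
def S_G1 : Prop :=
  (∀ N : Ob k, TT N → IsRes N (pt N)) ∧
  (∀ (N N' : Ob k) (A : Cx k), Iso N N' → IsRes N A → IsRes N' A)

/-- [G2] tW of a resolution. Inputs: C1, D3.
PROOF. e' = tWmap e; exactness componentwise; ker(tWmap f) ≅ tW (ker f) (identity on pairs) is in NF
by C1. -/
def S_G2 : Prop := ∀ (N : Ob k) (A : Cx k) (e : (A.T 0).V →ₗ[k] N.V),
  ResWith N A e → ResWith (tW N) (tWC A) (tWmap e)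

/-- [G3] chain maps lift. Inputs: C5.
PROOF. φ_0: C5 with T = A_0, X = B_0, Y = N', Z = 0 (f = e', g = 0; exactness = surjectivity),
φ = j ∘ e. φ_1: T = A_1, X = B_1, Y = B_0, Z = N', φ = φ_0 ∘ d. φ_{i+1} from φ_i in the same way
(B.d i (φ_{i+1} v) = φ_i (A.d i v) and B.d (i-1)(φ_i (A.d i v)) = φ_{i-1}(d d v) = 0). Infinite
recursion: state ∀ i, ∀ φ_i, φ_{i+1} with the relation, ∃ φ_{i+2} and use `exists_seq...` or
define the sequence by `Nat.rec` on a sigma type with `Classical.choice`. -/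
def S_G3 : Prop := ∀ (N N' : Ob k) (A B : Cx k) (e : (A.T 0).V →ₗ[k] N.V)
  (e' : (B.T 0).V →ₗ[k] N'.V) (j : N.V →ₗ[k] N'.V), ResWith N A e → ResWith N' B e' →
  IsHom N N' j → ∃ φ : ChMap A B, ∀ v, e' (φ.f 0 v) = j (e v)

/-- [G4a] the cone is exact. Inputs: none.
PROOF. Let e'' = π ∘ e_B. Surjective. Exact at B_0: if π(e_B b) = 0 then e_B b = j n', n' = e_A a, so
b - φ_0 a in ker e_B = d B_1. Conversely e''(d b + φ_0 a) = π j e_A a = 0. Exact in degree 1: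
(b,a) with d b + φ_0 a = 0: j e_A a = e_B φ_0 a = - e_B d b = 0, so e_A a = 0, a = d a' (a' in A_1),
b + φ_1 a' in ker d = range d: b + φ_1 a' = d b', so (b,a) = (d b' + φ_1(-a'), - d (-a')). Degrees
>= 2 in the same way with d a = 0. Compositions are zero by `comm`. -/
def S_G4a : Prop := ∀ (N' N N'' : Ob k) (A B : Cx k) (eA : (A.T 0).V →ₗ[k] N'.V)
  (eB : (B.T 0).V →ₗ[k] N.V) (j : N'.V →ₗ[k] N.V) (π : N.V →ₗ[k] N''.V) (φ : ChMap A B),
  IsHom N' N j → IsHom N N'' π → Function.Injective j → Function.Exact j π →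
  Function.Surjective π → ResWith N' A eA → ResWith N B eB → (∀ v, eB (φ.f 0 v) = j (eA v)) →
  Function.Surjective (fun v => π (eB v)) ∧
  Function.Exact ((cone A B φ).d 0) (π ∘ₗ eB : (B.T 0).V →ₗ[k] N''.V) ∧
  ∀ i, Function.Exact ((cone A B φ).d (i + 1)) ((cone A B φ).d i)

/-- [G4] the cone lemma. Inputs: C1, G4a.
PROOF. Kernels. ker(π e_B) is an extension of N' by ker e_B: maps inclusion, and
b ↦ the n' with j n' = e_B b; onto since e_B is onto. ker(d_0 of the cone) = {(b,a): db + φ_0 a = 0} is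
an extension of ker e_A by ker(B.d 0): maps b ↦ (b,0), (b,a) ↦ a (a in ker e_A as in G4a); onto: for
a in ker e_A, e_B φ_0 a = 0, so φ_0 a = - d b. ker(d_{i+1}): extension of ker(A.d i) by
ker(B.d (i+1)), onto by exactness of B: d(φ_{i+1} a) = φ_i d a = 0. TT: prod. -/
def S_G4 : Prop := ∀ (N' N N'' : Ob k) (A B : Cx k) (eA : (A.T 0).V →ₗ[k] N'.V)
  (eB : (B.T 0).V →ₗ[k] N.V) (j : N'.V →ₗ[k] N.V) (π : N.V →ₗ[k] N''.V) (φ : ChMap A B),
  IsHom N' N j → IsHom N N'' π → Function.Injective j → Function.Exact j π →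
  Function.Surjective π → NF N' → ResWith N' A eA → ResWith N B eB →
  (∀ v, eB (φ.f 0 v) = j (eA v)) →
  ResWith N'' (cone A B φ) (π ∘ₗ eB : (B.T 0).V →ₗ[k] N''.V)

/-- [G5] comparison of two resolutions up to degree 2. Inputs: C5, G3.
PROOF. α : A → A', β : A' → A chain maps over the identity (G3). γ_i = β_i α_i - 1 is a chain map
A → A over 0: e γ_0 = 0. h_0 : A_0 → A_1 with d h_0 = γ_0 (C5 with T = A_0, X = A_1, Y = A_0, Z = N).
γ_1 - h_0 d : A_1 → A_1 satisfies d(γ_1 - h_0 d) = γ_0 d - γ_0 d = 0, so = d h_1, h_1 : A_1 → A_2.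
γ_2 - h_1 d : d(γ_2 - h_1 d) = γ_1 d - (γ_1 - h_0 d) d = 0, so = d h_2, h_2 : A_2 → A_3. -/
def S_G5 : Prop := ∀ (N : Ob k) (A A' : Cx k), IsRes N A → IsRes N A' →
  ∃ (α : (A.T 2).V →ₗ[k] (A'.T 2).V) (β : (A'.T 2).V →ₗ[k] (A.T 2).V)
    (h1 : (A.T 1).V →ₗ[k] (A.T 2).V) (h2 : (A.T 2).V →ₗ[k] (A.T 3).V),
    IsHom (A.T 2) (A'.T 2) α ∧ IsHom (A'.T 2) (A.T 2) β ∧ IsHom (A.T 1) (A.T 2) h1 ∧
    IsHom (A.T 2) (A.T 3) h2 ∧ ∀ v, β (α v) = v + A.d 2 (h2 v) + h1 (A.d 1 v)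

/-- [G6] the comparison theorem in the form in which it is used. Inputs: A2, G5.
PROOF. Let T = A'.T 2. The functionals φ_j ∘ β on T kill NN T (A2), so they induce functionals on
FF T a, which has dimension <= 1: they are linearly dependent there: (c1,c2) /= 0 with
c1 φ1(β u) + c2 φ2(β u) = 0 for all u in invs T a. Put φ = c1 φ1 + c2 φ2, ψ = - φ ∘ h1; ψ kills
NN (A2). For v in invs (A.T 2) a: α v in invs T a, h2 v in invs (A.T 3) a (A2), so
0 = φ(β(α v)) = φ v + φ(d(h2 v)) + φ(h1(d v)) = φ v + 0 - ψ(d v). -/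
def S_G6 : Prop := ∀ (N : Ob k) (A A' : Cx k) (a : ℤ), IsRes N A → IsRes N A' →
  fd (A'.T 2) a ≤ 1 → ∀ φ1 φ2 : (A.T 2).V →ₗ[k] k, (∀ v ∈ NN (A.T 2), φ1 v = 0) →
  (∀ v ∈ NN (A.T 2), φ2 v = 0) → (∀ v ∈ invs (A.T 3) a, φ1 (A.d 2 v) = 0) →
  (∀ v ∈ invs (A.T 3) a, φ2 (A.d 2 v) = 0) →
  ∃ c1 c2 : k, (c1 ≠ 0 ∨ c2 ≠ 0) ∧ ∃ ψ : (A.T 1).V →ₗ[k] k, (∀ v ∈ NN (A.T 1), ψ v = 0) ∧
    ∀ v ∈ invs (A.T 2) a, c1 * φ1 v + c2 * φ2 v = ψ (A.d 1 v)

/-! ## Block F : the functor F_a -/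

/-- [F1] dim F_a of products, zero, isomorphic objects, ∇(b), negative weights.
Inputs: A2, A10, B1, B3.
PROOF. prod: invs (X×Y) = invs X × invs Y, and (NN X).map inl, (NN Y).map inr ≤ NN (X×Y); the map
(X/NN X) × (Y/NN Y) → (X×Y)/NN(X×Y) sends FF X a × FF Y a onto FF (X×Y) a. iso: A2. ∇(b): invs is
contained in k x^b, of weight b. a < 0: invs X a = 0 (A10). -/
def S_F1 : Prop :=
  (∀ (X Y : Ob k) (a : ℤ), fd (prodO X Y) a ≤ fd X a + fd Y a) ∧
  (∀ (a : ℤ), fd (zer k) a = 0) ∧ (∀ (X Y : Ob k) (a : ℤ), Iso X Y → fd X a = fd Y a) ∧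
  (∀ (b : ℕ) (a : ℤ), fd (nab k b) a ≤ if a = b then 1 else 0) ∧
  (∀ (X : Ob k) (a : ℤ), a < 0 → fd X a = 0)

/-! ## Block K : the complex K(n) -/

/-- [K1] K(n) is a resolution of ∇(n). Inputs: B4, C1, D2, D3, G2, G4.
PROOF. Induction on n of: ∃ eA eB, ResWith (∇(n)) (KT n).A eA, ResWith (∇(n+1)) (KT n).B eB and
eB(ι_0(u,v)) = mW n (eA u, eA v). n = 0: eA : one k → ∇(0) the isomorphism c ↦ c · 1 (D2, G1-like
argument: C0 is the trivial resolution of one), eB = mW 0 ∘ tWmap eA (bijective). n → n+1: A' = B,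
eA' = eB; B' = cone A (tWC B) (phiT ..), eB' = mW (n+1) ∘ tWmap eB; G4 with N' = ∇(n),
N = tW (∇(n+1)), N'' = ∇(n+2), j = jW n, π = mW (n+1), resolution of N by G2; compatibility
tWmap eB (phiT_0 w) = (- eB(ι(0,w)), eB(ι(w,0))) = (- y eA w, x eA w) = jW (eA w). The new ι is
coneInl, in degree 0 the identity. -/
def S_K1 : Prop := ∀ n, IsRes (nab k n) (KC k n)

/-- [K2] support and bijectivity of the coordinates on K(n).
PROOF. Induction on n for the pair (n, n+1) (definition of coT). For coW: S ok for n places, T any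
subset with T.erase n ok. For the cone (n+2 places): index (S,T) with n not in S: from tWC B (n+1
places, then place n+1); n in S: from A (then n, n+1 not in T). The two parts have disjoint supports,
so the sum is injective and onto. -/
def S_K2 : Prop := ∀ n b,
  (∀ (u : ((KC k n).T b).V) S T, co n b u S T ≠ 0 → okk n b S T) ∧
  (∀ u : ((KC k n).T b).V, co n b u = 0 → u = 0) ∧
  (∀ H : Finset ℕ → Finset ℕ → k, (∀ S T, H S T ≠ 0 → okk n b S T) →
    ∃ u : ((KC k n).T b).V, co n b u = H)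

/-- [K3] the differential in coordinates. Inputs: K2.
PROOF. Induction on n (pairs n, n+1). For n+2 (cone of A = K(n) → tW K(n+1), u = (u', w) with
u' = (u1,u2) in K(n+1)_{b+1} ⊗ W, w in K(n)_b). Case n ∉ S. If n+1 ∈ T: left side
co (n+1) b (d u2) S (T.erase (n+1)) + co (n+1) b (ι(w,0)) S (T.erase (n+1)), and
co (n+1) b (ι(w,0)) S T' = if n ∈ T' then 0 else co n b w S T' (ι = coneInl resp. identity). Right side:
terms m < n: insert m S does not contain n, T ∋ n+1, they give the induction hypothesis for u2 (m+1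
<= n, erase (n+1) commutes with erase m, erase (m+1)); term m = n: co (insert n S) = coordinates of w,
cupc n (co w S) T = [n ∉ T] co w S (T.erase (n+1)); sign (-1)^0 (no element of S above n). If n+1 ∉ T:
left: co (d u1) S T + co(-ι(0,w)) S T = .. - (if n ∈ T then co w S (T.erase n) else 0). Case n ∈ S:
left: co n (b-1) (- d w) (S.erase n) T, right: terms m < n with (insert m S).erase n =
insert m (S.erase n), number of elements of S above m = 1 + the number for S.erase n: sign -1.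
m = n+1 or m >= n-1 with n in S etc. vanish by support (K2: insert m S not admissible). -/
def S_K3 : Prop := ∀ (n b : ℕ) (u : ((KC k n).T (b + 1)).V) (S T : Finset ℕ),
  co n b ((KC k n).d b u) S T = ∑ m ∈ (Finset.range n).filter (fun m => m ∉ S),
    (-1) ^ (S.filter (fun j => m < j)).card * cupc m (co n (b + 1) u (insert m S)) T

/-- [K4] the group in coordinates. Inputs: K2.
PROOF. Induction on n (pairs). tW: x(t)(u,v) = (x(t)u + t x(t)v, x(t)v), y(t)(u,v) =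
(y(t)u, t y(t)u + y(t)v), h(s)(u,v) = (s h(s)u, s^{-1} h(s)v); `tW_ρ`, `prodO_ρ`. -/
def S_K4 : Prop := ∀ (n b : ℕ) (u : ((KC k n).T b).V) (S T : Finset ℕ),
  (∀ t, okk n b S T → co n b (((KC k n).T b).ρ (xx t) u) S T =
    ∑ T' ∈ (ZS n S).powerset.filter (fun T' => T ⊆ T'), t ^ (T' \ T).card * co n b u S T') ∧
  (∀ t, okk n b S T → co n b (((KC k n).T b).ρ (yy t) u) S T =
    ∑ T' ∈ T.powerset, t ^ (T \ T').card * co n b u S T') ∧
  (∀ s : kˣ, co n b (((KC k n).T b).ρ (hh s) u) S T =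
    ((s ^ ((n : ℤ) - 2 * b - 2 * T.card) : kˣ) : k) * co n b u S T)

/-- [K5] highest weight vectors in coordinates. Inputs: K2, K4.
PROOF. u in invs (weight n - 2r). Weight: (s^{n-2b-2|T|} - s^{n-2r}) co u S T = 0 for all s, so
co u S T /= 0 implies |T| + b = r. Fixed by x(t): for (S,T) admissible, the coefficient of t^m in
co (x(t)u - u) S T vanishes for m >= 1 (polynomial in t over an infinite field), it is the sum over
T' ⊇ T, |T'| = |T| + m, of co u S T'. Converse: an H with these properties gives a u (K2) which is in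
invs (K4 and injectivity). ZS n S ⊇ T iff (S,T) admissible, for admissible S. If S is not admissible
co u S = 0. -/
def S_K5 : Prop := ∀ (n b r q : ℕ), q + b = r → 2 * r ≤ n →
  (∀ u ∈ invs ((KC k n).T b) ((n : ℤ) - 2 * r), ∀ S, co n b u S ∈ PP k (ZS n S) q) ∧
  (∀ S, okk n b S ∅ → ∀ h ∈ PP k (ZS n S) q,
    ∃ u ∈ invs ((KC k n).T b) ((n : ℤ) - 2 * r),
      ∀ S' T, co n b u S' T = if S' = S then h T else 0)

/-- [K6] degrees b > r have no highest weight vectors of weight n - 2r. Inputs: K2, K4.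
PROOF. co u S T /= 0 would imply |T| + b = r (as in K5). -/
def S_K6 : Prop := ∀ (n b r : ℕ), r < b → ∀ u ∈ invs ((KC k n).T b) ((n : ℤ) - 2 * r), u = 0

/-- [K7] functionals which kill NN, in coordinates. Inputs: K2, K4.
PROOF. First part: let e_{S,T} be the element with co e = indicator of (S,T) (K2), y S T = ψ(e_{S,T}) for
(S,T) admissible and |T| = q, 0 otherwise. For u of weight n-2r, u = sum co u S T e_{S,T} over
|T| = q. PP: for T' ⊆ ZS n S, |T'| < q: ψ(y(t)e_{S,T'}) = ψ(e_{S,T'}) for all t and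
y(t)e_{S,T'} = sum_{T ⊇ T', T ⊆ ZS} t^{|T \ T'|} e_{S,T}; the coefficient of t^{q-|T'|}.
Second part: Λ(u) = sum Z S T co u S T; Λ(y(t)u) = sum_{S, |T|=q} Z S T sum_{T' ⊆ T} t^{|T\T'|} co u S T'
= sum_{S,T'} co u S T' t^{q-|T'|} sum_{T ⊇ T', |T| = q} Z S T, and the inner sum vanishes unless
|T'| = q (PP condition), where it is Z S T'. -/
def S_K7 : Prop := ∀ (n b r q : ℕ), q + b = r → 2 * r ≤ n →
  (∀ ψ : ((KC k n).T b).V →ₗ[k] k, (∀ v ∈ NN ((KC k n).T b), ψ v = 0) →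
    ∃ y : Finset ℕ → Finset ℕ → k, (∀ S, okk n b S ∅ → y S ∈ PP k (ZS n S) q) ∧
      ∀ u ∈ invs ((KC k n).T b) ((n : ℤ) - 2 * r),
        ψ u = ∑ S ∈ (Finset.range n).powerset, ∑ T ∈ (ZS n S).powersetCard q,
          y S T * co n b u S T) ∧
  (∀ Z : Finset ℕ → Finset ℕ → k, (∀ S, okk n b S ∅ → Z S ∈ PP k (ZS n S) q) →
    ∃ Λ : ((KC k n).T b).V →ₗ[k] k, (∀ v ∈ NN ((KC k n).T b), Λ v = 0) ∧
      ∀ u, Λ u = ∑ S ∈ (Finset.range n).powerset, ∑ T ∈ (ZS n S).powersetCard q,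
          Z S T * co n b u S T)

/-- [K8] adjointness of cap and cup.
PROOF. Z' = Z minus {m, m+1}. The subsets T of Z with q+1 elements with m+1 in T, m not in T are the
insert (m+1) T0, T0 in Z'.powersetCard q, etc. -/
def S_K8 : Prop := ∀ (Z : Finset ℕ) (m q : ℕ) (z v : Finset ℕ → k), m ∈ Z → m + 1 ∈ Z →
  (∀ T, v T ≠ 0 → T ⊆ Z \ {m, m + 1}) →
  ∑ T ∈ Z.powersetCard (q + 1), z T * cupc m v T =
    ∑ T ∈ (Z \ {m, m + 1}).powersetCard q, cap m z T * v T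

end NoP

section WithP
variable (k : Type) [Field k] [IsAlgClosed k] (p : ℕ) [Fact p.Prime] [CharP k p]

/-- [B7] St ⊗ ∇(a)^F = ∇(pa + p - 1). Inputs: B1.
PROOF. f ⊗ g ↦ f · (g ∘ Frob), (σ,τ) ↦ f(σ,τ) g(σ^p, τ^p): equivariant (ring identities in
characteristic p: (g00 σ + g10 τ)^p = g00^p σ^p + g10^p τ^p). mm i ⊗ mm j ↦ mm (i + p j)
(0 <= i <= p-1, 0 <= j <= a), so it is onto; dimensions p(a+1) on both sides. -/
def S_B7 : Prop := ∀ a : ℕ, Iso (tens (nab k (p - 1)) (fr p (nab k a))) (nab k (p * a + (p - 1)))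

/-- [D4] twists. PROOF. the identity map in the first two cases; Rt: same maps. -/
def S_D4 : Prop :=
  (∀ X Y : Ob k, Iso (fr p (tens X Y)) (tens (fr p X) (fr p Y))) ∧
  (∀ X Y : Ob k, Iso (fr p (prodO X Y)) (prodO (fr p X) (fr p Y))) ∧
  (∀ X Y : Ob k, Iso X Y → Iso (fr p X) (fr p Y)) ∧ (∀ X Y : Ob k, Rt X Y → Rt (fr p X) (fr p Y)) ∧
  Iso (fr p (one k)) (one k)

/-- [D5] ∇(m) in TT for m <= p-1, and T ⊗ ∇(r) in TT for T in TT, r < p. Inputs: B6, D1, D2, D3.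
PROOF. binom(m,i) divides m!, not divisible by p. B6 with m := 0, n := m: ∇(m) retract of
tWn m (∇(0)), in TT by D3. T ⊗ ∇(r) is a retract of T ⊗ tWn r (one) ≅ tWn r T
(∇(0) ≅ one, so tWn r (∇(0)) ≅ tWn r (one) by D1). -/
def S_D5 : Prop := (∀ m, m < p → TT (nab k m)) ∧
  (∀ (T : Ob k) (r : ℕ), TT T → r < p → TT (tens T (nab k r)))

/-- [D6] St ⊗ T^F in TT for T in TT. Inputs: B6, B7, D1, D2, D3, D4, D5.
PROOF. Induction on TT T. prod, retr: D1, D2, D4. T = Wp m by induction on m. m = 0: St ⊗ one = St in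
TT (D5). m+1, X = Wp m: St ⊗ (tW X)^F ≅ St ⊗ (∇(1) ⊗ X)^F ≅ St ⊗ (∇(1)^F ⊗ X^F) ≅
(St ⊗ ∇(1)^F) ⊗ X^F ≅ ∇(2p-1) ⊗ X^F (B7), and ∇(2p-1) = ∇((p-1)+p) is a retract of tWn p St (B6:
binom(2p-1,i) is prime to p by Lucas, `Choose.choose_modEq_choose_mod_mul_choose_div_nat` or
similar), so ∇(2p-1) ⊗ X^F is a retract of (tWn p St) ⊗ X^F ≅ tWn p (St ⊗ X^F) in TT. -/
def S_D6 : Prop := ∀ T : Ob k, TT T → TT (tens (nab k (p - 1)) (fr p T))

/-! ## Block E : Casimir blocks -/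

/-- [E1] blocks: description, projection. Inputs: A2, A9.
PROOF. C commutes with the group (A9), so the generalised eigenspace is stable and gcore does
nothing. Fitting: V = ker (C-c)^n ⊕ range (C-c)^n for n = finrank; both are stable; the projection
onto the first is equivariant. -/
def S_E1 : Prop := ∀ (X : Ob k) (c : k),
  (∀ v, v ∈ blkS X c ↔ v ∈ (Cas X).maxGenEigenspace c) ∧
  (∃ π : X.V →ₗ[k] (blk X c).V, IsHom X (blk X c) π ∧ ∀ v : blkS X c, π (v : X.V) = v) ∧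
  Rt (blk X c) X

/-- [E2] functoriality of blocks. Inputs: A2, E1.
PROOF. f ∘ Cas X = Cas Y ∘ f (A2), so f((C-c)^n v) = (C-c)^n f(v). Third: if f v in blkS Y c and f
injective then (C-c)^n f v = 0 implies (C-c)^n v = 0. -/
def S_E2 : Prop := ∀ (X Y : Ob k) (c : k),
  (∀ f : X.V →ₗ[k] Y.V, IsHom X Y f → ∀ v ∈ blkS X c, f v ∈ blkS Y c) ∧
  (Iso X Y → Iso (blk X c) (blk Y c)) ∧
  (∀ f : X.V →ₗ[k] Y.V, IsHom X Y f → Function.Injective f → ∀ v, f v ∈ blkS Y c → v ∈ blkS X c)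

/-- [E3] the Casimir operator on X ⊗ Y^F. Inputs: A1, A2.
PROOF. x(t)(a ⊗ b) = sum_{i,j} t^{i+pj} E^{(i)}a ⊗ E^{(j)}b (E^{(j)} on Y), so the coefficient of t^1 is
E a ⊗ b (p >= 2, E^{(0)} = 1); same for F; hop and Cas follow. -/
def S_E3 : Prop := ∀ (X Y : Ob k) (a : X.V) (b : Y.V),
  ee (tens X (fr p Y)) 1 (a ⊗ₜ[k] b) = (ee X 1 a) ⊗ₜ[k] b ∧
  ff (tens X (fr p Y)) 1 (a ⊗ₜ[k] b) = (ff X 1 a) ⊗ₜ[k] b ∧
  Cas (tens X (fr p Y)) (a ⊗ₜ[k] b) = (Cas X a) ⊗ₜ[k] b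

/-- [E4] blocks of X ⊗ Y^F. Inputs: E1, E2, E3.
PROOF. (C_X - c)^n ⊗ 1 = (C - c)^n on X ⊗ Y^F; with a basis b_j of Y every z = sum z_j ⊗ b_j uniquely and
(C-c)^n z = sum (C_X - c)^n z_j ⊗ b_j; so blkS = {z : all z_j in blkS X c} = image of the injective
map (blk X c) ⊗ Y → X ⊗ Y. -/
def S_E4 : Prop := ∀ (X Y : Ob k) (c : k),
  Iso (tens (blk X c) (fr p Y)) (blk (tens X (fr p Y)) c)

/-- [E5] inner part of the block of ∇(a) ⊗ ∇(r), a + 1 = 0 in k. Inputs: B3, B5, D2, E1, E2.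
PROOF. Write j' = r - j (0 <= j' <= r-1): statement for ∇(a-r+j') ⊗ ∇(j'). Induction on j'.
j' = 0: ∇(a-r) ⊗ ∇(0) ≅ ∇(a-r) (D2) and C acts by (a-r+1)^2 = r^2. Step j' → j'+1 (j'+1 <= r-1):
B5: 0 → ∇(a-r+j') ⊗ ∇(j') → ∇(a-r+j'+1) ⊗ ∇(j'+1) → ∇(a-r+2j'+2) → 0, and C acts on the last one by
(a-r+2j'+3)^2 = (2(j'+1) - r)^2 with (2(j'+1)-r)^2 - r^2 = 4(j'+1)(j'+1-r) /= 0 in k if p is odd
(1 <= j'+1 <= r-1 < p); if p = 2 then r = 1 and there is no such step. So a generalised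
eigenvector for r^2 maps to 0 (E2; a vector killed by (C-r^2)^n in a space where C is another
scalar is 0) and comes from a generalised eigenvector of ∇(a-r+j') ⊗ ∇(j') (E2 third part). -/
def S_E5 : Prop := ∀ (a r j' : ℕ), ((a : k) + 1 = 0) → 1 ≤ r → r < p → r ≤ a → j' < r →
  ∃ i : (nab k (a - r)).V →ₗ[k] (tens (nab k (a - r + j')) (nab k j')).V,
    IsHom (nab k (a - r)) (tens (nab k (a - r + j')) (nab k j')) i ∧ Function.Injective i ∧
    ∀ v, v ∈ blkS (tens (nab k (a - r + j')) (nab k j')) ((r : k) ^ 2) ↔ v ∈ LinearMap.range i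

/-- [E6] 0 → ∇(a-r) → block of ∇(a) ⊗ ∇(r) → ∇(a+r) → 0, a + 1 = 0 in k. Inputs: B3, B5, E1, E2, E5.
PROOF. B5 with (a-1, r-1): 0 → ∇(a-1) ⊗ ∇(r-1) → ∇(a) ⊗ ∇(r) → ∇(a+r) → 0 =: (f, g). C acts on ∇(a+r) by
(a+r+1)^2 = r^2. g restricted to the block is onto: for w choose v with g v = w, project v to its
component v_0 in the block (E1): v - v_0 is a sum of generalised eigenvectors for other
eigenvalues, or: π equivariant... (g(v - v_0) is in the range of (C-r^2)^n on ∇(a+r), which is 0).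
Kernel: f(block of ∇(a-1) ⊗ ∇(r-1)) (E2 third part) = f(range i) by E5 with j' = r-1. -/
def S_E6 : Prop := ∀ (a r : ℕ), ((a : k) + 1 = 0) → 1 ≤ r → r < p → r ≤ a →
  ShortEx (nab k (a - r)) (blk (tens (nab k a) (nab k r)) ((r : k) ^ 2)) (nab k (a + r))

/-- [E7] 0 → ∇(pm-r-1) → Q_r ⊗ ∇(m-1)^F → ∇(pm+r-1) → 0. Inputs: B7, D1, D2, E2, E4, E6.
PROOF. Q_r ⊗ ∇(m-1)^F ≅ block of (St ⊗ ∇(r)) ⊗ ∇(m-1)^F (E4) ≅ block of (St ⊗ ∇(m-1)^F) ⊗ ∇(r)
(assoc, comm, E2) ≅ block of ∇(pm-1) ⊗ ∇(r) (B7, p(m-1) + (p-1) = pm-1). E6 with a = pm-1. -/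
def S_E7 : Prop := ∀ (m r : ℕ), 1 ≤ m → 1 ≤ r → r < p →
  ShortEx (nab k (p * m - r - 1)) (tens (Qr k p r) (fr p (nab k (m - 1)))) (nab k (p * m + r - 1))

/-- [E8] Q_r ⊗ (-)^F preserves TT and NF (and St ⊗ (-)^F preserves NF).
Inputs: B7, C1, D1, D2, D5, D6, E1, E7.
PROOF. TT: Q_r is a retract of St ⊗ ∇(r) (E1), so Q_r ⊗ T^F is a retract of (St ⊗ ∇(r)) ⊗ T^F ≅
(St ⊗ T^F) ⊗ ∇(r), in TT by D5, D6. NF: induction: zero: the tensor product with a zero space is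
zero; nab a: E7 with m = a+1 and NF.ext, resp. B7 and C1 (iso); ext: tensoring over a field is
exact (`Module.Flat`, `lTensor_exact`). -/
def S_E8 : Prop :=
  (∀ (r : ℕ), 1 ≤ r → r < p → ∀ T : Ob k, TT T → TT (tens (Qr k p r) (fr p T))) ∧
  (∀ (r : ℕ), 1 ≤ r → r < p → ∀ N : Ob k, NF N → NF (tens (Qr k p r) (fr p N))) ∧
  (∀ N : Ob k, NF N → NF (tens (nab k (p - 1)) (fr p N)))

/-! ## Block F, continued -/

/-- [F2] F_lambda(Q ⊗ Y^F) for Q with QData. Inputs: A1, A2, A7, E3.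
PROOF. q, q' as in QData. Let z in invs (Q ⊗ Y^F) λ. E z = 0 (coefficient of t in x(t)z = z). With a
basis b_j of Y: z = sum z_j ⊗ b_j, E z_j = 0 (E3), so z_j = α_j q + β_j q' and z = q ⊗ y1 + q' ⊗ y2
(choose β_j = 0 if q' = 0). x(t)z = z gives q ⊗ (x(t^p)y1 - y1) + q' ⊗ (..) = 0, so (independence, or
q' = 0) x(t^p)y1 = y1 for all t, and every element of k is a p-th power: y1 fixed by all x(t).
h(s)z = s^λ z gives s^m h(s^p) y1 = s^λ y1 for all s; decompose y1 in weight vectors y1_a (A7):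
(s^{m+pa} - s^λ) y1_a = 0: y1_a = 0 unless m + p a = λ. So y1 = 0 if p does not divide λ - m, and
y1 in invs Y λ', λ' = (λ-m)/p otherwise. q' ⊗ y2 = F(q'' ⊗ y2) in NN (q' = F q''; F u = coefficient of
t in y(t)u - u in NN, `cof_mem'`; E3). Hence FF (Q ⊗ Y^F) λ is contained in the image of FF Y λ' under
L : Y/NN Y → (Q⊗Y)/NN, y ↦ q ⊗ y, provided L is well defined: q ⊗ NN(Y) in NN(Q ⊗ Y^F): NN Y is
spanned by the y(t^p)y' - y' (p-th powers); with u = y(-t)q ⊗ y':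
q ⊗ (y(t^p)y' - y') = [y(t)u - u] + (y(-t)q - q) ⊗ y', and y(-t)q - q = sum_{i>=1} (-t)^i F^{(i)}q
= F q'' for some q'', and (F q'') ⊗ y' = F(q'' ⊗ y') in NN. -/
def S_F2 : Prop := ∀ (Q : Ob k) (m : ℤ), QData Q m → ∀ (Y : Ob k) (l : ℤ),
  fd (tens Q (fr p Y)) l ≤ if (p : ℤ) ∣ l - m then fd Y ((l - m) / p) else 0

/-- [F3] the kernel of E on St ⊗ ∇(r), r < p. Inputs: A2, B1, B2.
PROOF. E(a ⊗ b) = E a ⊗ b + a ⊗ E b (coefficient of t in x(t)a ⊗ x(t)b). z = sum_{j<=r} z_j ⊗ mm r j;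
E z = sum_j (E z_j + (j+1) z_{j+1}) ⊗ mm r j (z_{r+1} = 0) as E mm r j = j mm r (j-1). So E z = 0 iff
z_{j+1} = - E z_j/(j+1) (j < r) and E z_r = 0, i.e. z_j = (-1)^j E^{(j)} z_0 and E^{(r+1)}... :
E^{r+1} z_0 = 0, z_0 in the span of mm (p-1) i, i <= r (B2: E^{r+1} mm (p-1) i is a nonzero multiple
of mm (p-1) (i-r-1) for r < i <= p-1). κ_i = sum_{j <= min(i,r)} (-1)^j E^{(j)} mm (p-1) i ⊗ mm r j, of
weight (p-1-2i+2j) + (r-2j). κ_0 = mm (p-1) 0 ⊗ mm r 0. -/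
def S_F3 : Prop := ∀ r, r < p → ∃ κ : ℕ → (MM k p r).V,
  κ 0 = q0 k p r ∧
  (∀ i, i ≤ r → κ i ∈ wt (MM k p r) ((p : ℤ) - 1 + r - 2 * i) ∧ ee (MM k p r) 1 (κ i) = 0) ∧
  ∀ z, ee (MM k p r) 1 z = 0 → ∃ c : ℕ → k, z = ∑ i ∈ Finset.range (r + 1), c i • κ i

/-- [F4] the kernel of E on the block Q_r. Inputs: A8, E1, F3.
PROOF. C κ_i = 4 F E κ_i + (H+1)^2 κ_i = (p + r - 2i)^2 κ_i = (r-2i)^2 κ_i. z in the block: z = sum c_i κ_i;
(C - r^2)^n z = sum ((r-2i)^2 - r^2)^n c_i κ_i = 0, so c_i κ_i = 0 whenever (r-2i)^2 /= r^2 in k (the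
κ_i have different weights, A7 uniqueness), and (r-2i)^2 = r^2 iff 4 i (i-r) = 0 iff i = 0 or i = r
(p odd; for p = 2 r = 1 and i is 0 or 1 anyway). -/
def S_F4 : Prop := ∀ r, 1 ≤ r → r < p →
  ∃ κ' : (MM k p r).V, κ' ∈ wt (MM k p r) ((p : ℤ) - 1 - r) ∧
    ∀ z, ee (MM k p r) 1 z = 0 → z ∈ blkS (MM k p r) ((r : k) ^ 2) →
      ∃ a b : k, z = a • q0 k p r + b • κ'

/-- [F5] low weights of St ⊗ ∇(r) are in the image of F; q0 = x^{p-1} ⊗ x^r. Inputs: A2, A3, A4, A7,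
B1, B2.
PROOF. M = St ⊗ ∇(r). F(u ⊗ v) = F u ⊗ v + u ⊗ F v. F mm (p-1) i = (p-1-i) mm (p-1) (i+1), nonzero
factor for i < p-1: so mm (p-1) (i+1) ⊗ v = F(..) - (p-1-i)^{-1} mm (p-1) i ⊗ F v; by induction on i
every element of M is in range F + mm (p-1) 0 ⊗ ∇(r). For i >= 1: F^{(i)}q0: if i < p it is
F^i q0 / i! in range F. If i >= p: it has weight p-1+r-2i < p-1-r; write F^{(i)}q0 = F u + mm (p-1) 0 ⊗ w,
take weight components (A7): the weight component of mm (p-1) 0 ⊗ w is mm (p-1) 0 ⊗ w_b with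
b = r - 2i < -r, so w_b = 0 (B1). -/
def S_F5 : Prop := ∀ r, r < p → ∀ i, 1 ≤ i →
  ff (MM k p r) i (q0 k p r) ∈ LinearMap.range (ff (MM k p r) 1)

/-- [F6] F^r q0. Inputs: A2, A3, A4, A8, A9, B1, B2.
PROOF. q0 is fixed by x(t), of weight μ = p-1+r. sl_2: E F^n q0 = n (μ - n + 1) F^{n-1} q0 (induction,
EF = FE + H, H acts on F^n q0 by μ - 2n); n = r: μ - r + 1 = p = 0, so E F^r q0 = 0.
F^r q0 = sum binom(r,i) F^i mm (p-1) 0 ⊗ F^{r-i} mm r 0, the term i = 0 is r! mm (p-1) 0 ⊗ mm r r and the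
others are multiples of mm (p-1) i ⊗ mm r (r-i), i >= 1: so F^r q0 /= 0 (r < p). Fixed by x(t): i >= 1,
i < p: E^{(i)} = E^i/i! kills it; i >= p: the weight p-1-r+2i > p-1+r is larger than all weights of
M (basis mm ⊗ mm of weights <= p-1+r), so E^{(i)}F^r q0 = 0. -/
def S_F6 : Prop := ∀ r, r < p →
  q0 k p r ∈ invs (MM k p r) ((p : ℤ) - 1 + r) ∧ q0 k p r ≠ 0 ∧
  ((ff (MM k p r) 1) ^ r : Module.End k (MM k p r).V) (q0 k p r) ≠ 0 ∧
  ((ff (MM k p r) 1) ^ r : Module.End k (MM k p r).V) (q0 k p r) ∈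
    invs (MM k p r) ((p : ℤ) - 1 - r)

/-- [F7] QData for Q_r and for St. Inputs: A2, A7, A8, B1, B2, E1, E2, F4, F5, F6.
PROOF. Q_r: q = q0, q' = F^r q0 in the block: C q0 = (H+1)^2 q0 = (p+r)^2 q0 = r^2 q0, and the block is a
stable submodule, F commutes with the inclusion (A2), so q' is in the block and
q' = F(F^{r-1}q0) in Q_r. Kernel of E in Q_r: F4; F^r q0 itself is a q0 + b κ', and by weights
(p-1+r /= p-1-r) a = 0, so F^r q0 = b κ' with b /= 0. Independence: nonzero, different weights (A7).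
F^{(i)}q: F5 gives F^{(i)}q0 = F u in M; apply the projection π (E1): F^{(i)}q = F(π u) in Q_r.
St (m = p-1): q = mm (p-1) 0, q' = 0: E mm (p-1) i = i mm (p-1) (i-1), factor nonzero for
1 <= i <= p-1, so ker E = k q; F^{(i)}q = binom(p-1,i) mm (p-1) i = F(multiple of mm (p-1) (i-1)) for
1 <= i <= p-1 and 0 for i >= p. -/
def S_F7 : Prop := (∀ r, 1 ≤ r → r < p → QData (Qr k p r) ((p : ℤ) - 1 + r)) ∧
  QData (nab k (p - 1)) ((p : ℤ) - 1)

/-! ## Block G, continued -/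

/-- [G7] Q ⊗ (-)^F of a resolution. Inputs: C1.
PROOF. e' = thMap e. Exactness of Q ⊗ - over a field (`lTensor_exact`, `LinearMap.lTensor_surjective`).
ker(thMap f) ≅ Q ⊗ (ker f)^F: injectivity by flatness and exactness. -/
def S_G7 : Prop := ∀ (Q : Ob k), (∀ T : Ob k, TT T → TT (tens Q (fr p T))) →
  (∀ N : Ob k, NF N → NF (tens Q (fr p N))) → ∀ (N : Ob k) (A : Cx k)
  (e : (A.T 0).V →ₗ[k] N.V), ResWith N A e →
    ResWith (tens Q (fr p N)) (thC p Q A) (thMap p Q (X := A.T 0) (Y := N) e)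

end WithP

/-- [G8] existence of the numbers c_i(v,w), and c_2 <= 1.
PROOF. Existence: recursion on v (p >= 2; m < pm, m < pm+r, pm-r < pm+r; pm-r >= 1). Bound: first
c_0(v,w) = [v=w] (v >= 1). Parity: c_i(v,w) = 0 unless v = w mod 2 (induction: if w%p = 0, c_i(m,w/p)
/= 0 then m = w/p mod 2, so pm = w mod 2; w%p = r: pm + r = p(w/p) + r = w; pm-r = pm+r mod 2).
c_1(pm+r,w) = [w%p=r] c_1(m,w/p) + [pm-r = w]; both terms nonzero: w = pm-r = p(m-1)+(p-r), so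
p-r = r, w/p = m-1, but c_1(m,m-1) = 0 by parity. So c_1 <= 1. c_2(pm+r,w) = [w%p=r] c_2(m,w/p) +
c_1(pm-r,w). If m = 1: c_1(p-r,w) = 0. If m >= 2, pm-r = p(m-1)+(p-r):
c_1(pm-r,w) = [w%p=p-r] c_1(m-1,w/p) + [w = p(m-1)-(p-r) = p(m-2)+r]. Let w' = w/p. At most the
three terms X = [w%p=r] c_2(m,w'), Y = [w%p=p-r] c_1(m-1,w'), Z = [w%p=r, w'=m-2], each <= 1
(induction). No two of them are nonzero: X, Z: c_2(m,m-2) = 0 (lemma below). X, Y need p-r = r, i.e.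
p = 2, r = 1: m = w' and m-1 = w' mod 2, impossible. Y, Z need p = 2 and w' = m-2:
c_1(m-1,m-2) = 0 by parity.
Lemma: c_i(v,w) /= 0 implies w <= v, and w < v if i >= 1 (induction). c_2(v,v-2) = 0 for v >= 2:
v < p clear. v = pm: v-2 divisible by p only if p = 2, then c_2(m,m-1) = 0 by parity. v = pm+r: first
term needs p | 2, p = 2, r = 1, c_2(m,m-1) = 0 by parity; second term c_1(pm-r, pm+r-2) needs
pm+r-2 < pm-r, impossible for r >= 1. -/
def S_G8 : Prop := ∀ p : ℕ, p.Prime →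
  (∃ c, IsCC p c) ∧ ∀ c, IsCC p c → ∀ v w, 1 ≤ v → c 2 v w ≤ 1

section WithP2
variable (k : Type) [Field k] [IsAlgClosed k] (p : ℕ) [Fact p.Prime] [CharP k p]

/-- [G9] minimal resolutions: dim F_{w-1}(T_i) <= c_i(v,w). Inputs: B7, C1, D1, D3, D5, D6, E7, E8,
F1, F2, F7, G1, G3, G4, G7.
PROOF. Strong induction on v. v < p: pt (∇(v-1)) (D5, G1), F1. v = pm: Θ_0 = St ⊗ (-)^F of the
resolution of ∇(m-1) (G7 with E8 third part and D6), St ⊗ ∇(m-1)^F ≅ ∇(pm-1) (B7, G1); F2 with QData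
St (p-1): l = w-1, l - m = w - p, divisible by p iff p | w, quotient w/p - 1.
v = pm + r: B = Θ_r of the resolution of ∇(m-1) (G7, E8), A = the resolution of ∇(pm-r-1)
(pm-r < v), chain map by G3, cone by G4, exact sequence E7. T_0 = B_0, T_{i+1} = B_{i+1} × A_i: F1. F2
with QData (Q_r) (p-1+r): l - (p-1+r) = w - r - p, divisible by p iff w%p = r, quotient w/p - 1
(natural number division; for w/p = 0 the weight -1: F_{-1} = 0 by F1). -/
def S_G9 : Prop := ∀ c, IsCC p c → ∀ v, 1 ≤ v → ∃ A : Cx k, IsRes (nab k (v - 1)) A ∧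
  ∀ i w : ℕ, fd (A.T i) ((w : ℤ) - 1) ≤ c i v w

end WithP2

end Pool.Agent.Sp49.Three
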