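import Mathlib
import Pool.Agent.Lib.MP_49c83e_al.Three.Stm

/-!
MP_49c83e_al, Theorem III: assembly.
-/

namespace Pool.Agent.Sp49.Three

section Asm
variable {k : Type} [Field k] [IsAlgClosed k]

/-- the general adjointness formula -/
theorem asm_adj (hK2 : S_K2 k) (hK3 : S_K3 k) (hK8 : S_K8 k) (n b q : ℕ)
    (Zf : Finset ℕ → Finset ℕ → k) (u : ((KC k n).T (b + 1)).V) :
    ∑ S ∈ (Finset.range n).powerset, ∑ T ∈ (ZS n S).powersetCard (q + 1),
      Zf S T * co n b ((KC k n).d b u) S T =
    ∑ S ∈ (Finset.range n).powerset, ∑ m ∈ S, (-1) ^ (S.filter (fun j => m < j)).card *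
      ∑ T ∈ (ZS n S).powersetCard q, cap m (Zf (S.erase m)) T * co n (b + 1) u S T := by
  have h1 : ∀ S ∈ (Finset.range n).powerset, ∑ T ∈ (ZS n S).powersetCard (q + 1),
      Zf S T * co n b ((KC k n).d b u) S T =
      ∑ m ∈ (Finset.range n).filter (fun m => m ∉ S), (-1) ^ (S.filter (fun j => m < j)).card *
        ∑ T ∈ (ZS n S).powersetCard (q + 1), Zf S T * cupc m (co n (b + 1) u (insert m S)) T := by
    intro S _
    simp_rw [hK3 n b u S, Finset.mul_sum]
    rw [Finset.sum_comm]
    apply Finset.sum_congr rfl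
    intro m _
    apply Finset.sum_congr rfl
    intro T _
    ring
  rw [Finset.sum_congr rfl h1]
  rw [Finset.sum_sigma', Finset.sum_sigma']
  refine Finset.sum_bij' (fun x _ => ⟨insert x.2 x.1, x.2⟩) (fun x _ => ⟨x.1.erase x.2, x.2⟩)
    ?_ ?_ ?_ ?_ ?_
  · rintro ⟨S, m⟩ hx
    simp only [Finset.mem_sigma, Finset.mem_powerset, Finset.mem_filter, Finset.mem_range] at hx ⊢
    refine ⟨?_, Finset.mem_insert_self _ _⟩
    intro x hx'
    rw [Finset.mem_insert] at hx'
    rcases hx' with rfl | hx'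
    · exact Finset.mem_range.mpr hx.2.1
    · exact hx.1 hx'
  · rintro ⟨S, m⟩ hx
    simp only [Finset.mem_sigma, Finset.mem_powerset, Finset.mem_filter, Finset.mem_range] at hx ⊢
    refine ⟨(Finset.erase_subset _ _).trans hx.1, Finset.mem_range.mp (hx.1 hx.2), ?_⟩
    simp
  · rintro ⟨S, m⟩ hx
    simp only [Finset.mem_sigma, Finset.mem_powerset, Finset.mem_filter, Finset.mem_range] at hx
    simp only
    rw [Finset.erase_insert hx.2.2]
  · rintro ⟨S, m⟩ hx
    simp only [Finset.mem_sigma, Finset.mem_powerset] at hx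
    simp only
    rw [Finset.insert_erase hx.2]
  · rintro ⟨S, m⟩ hx
    simp only [Finset.mem_sigma, Finset.mem_powerset, Finset.mem_filter, Finset.mem_range] at hx
    obtain ⟨hS, hmn, hmS⟩ := hx
    simp only
    rw [Finset.erase_insert hmS]
    have hcard : ((insert m S).filter (fun j => m < j)).card = (S.filter (fun j => m < j)).card := by
      rw [Finset.filter_insert, if_neg (lt_irrefl m)]
    rw [hcard]
    congr 1
    by_cases hok : ∃ T, co n (b + 1) u (insert m S) T ≠ 0
    · obtain ⟨T0, hT0⟩ := hok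
      obtain ⟨_, hadm, _⟩ := (hK2 n (b + 1)).1 u _ _ hT0
      have hm := hadm m (Finset.mem_insert_self _ _)
      have hS' : ∀ i ∈ S, i + 1 < n ∧ i + 1 ∉ insert m S := fun i hi =>
        ⟨(hadm i (Finset.mem_insert_of_mem hi)).1, (hadm i (Finset.mem_insert_of_mem hi)).2.1⟩
      have hm1 : m + 1 ∉ S := fun h => hm.2.1 (Finset.mem_insert_of_mem h)
      have hmim : m ∉ S.image (· + 1) := by
        rw [Finset.mem_image]
        rintro ⟨i, hi, rfl⟩
        exact (hS' i hi).2 (Finset.mem_insert_self _ _)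
      have hm1im : m + 1 ∉ S.image (· + 1) := by
        rw [Finset.mem_image]
        rintro ⟨i, hi, h⟩
        have : i = m := by omega
        exact hmS (this ▸ hi)
      have e1 : m ∈ ZS n S := by
        simp only [ZS, Finset.mem_sdiff, Finset.mem_range, Finset.mem_union]
        exact ⟨hmn, fun h => h.elim hmS hmim⟩
      have e2 : m + 1 ∈ ZS n S := by
        simp only [ZS, Finset.mem_sdiff, Finset.mem_range, Finset.mem_union]
        exact ⟨hm.1, fun h => h.elim hm1 hm1im⟩
      have e3 : ZS n S \ {m, m + 1} = ZS n (insert m S) := by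
        ext x
        simp only [ZS, Finset.mem_sdiff, Finset.mem_range, Finset.mem_union, Finset.mem_insert,
          Finset.mem_singleton, Finset.mem_image, not_or, not_exists, not_and]
        constructor
        · rintro ⟨⟨h1, h2, h3⟩, h4, h5⟩
          refine ⟨h1, ⟨h4, h2⟩, ?_⟩
          rintro i (rfl | hi)
          · exact fun h => h5 h.symm
          · exact h3 i hi
        · rintro ⟨h1, ⟨h2, h3⟩, h4⟩
          exact ⟨⟨h1, h3, fun i hi => h4 i (Or.inr hi)⟩, h2, fun h => h4 m (Or.inl rfl) h.symm⟩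
      have hsup : ∀ T, co n (b + 1) u (insert m S) T ≠ 0 → T ⊆ ZS n S \ {m, m + 1} := by
        intro T hT
        obtain ⟨_, had, hTn⟩ := (hK2 n (b + 1)).1 u _ _ hT
        rw [e3]
        intro x hx
        simp only [ZS, Finset.mem_sdiff, Finset.mem_union, Finset.mem_image]
        refine ⟨hTn hx, ?_⟩
        rintro (h | ⟨i, hi, rfl⟩)
        · exact (had x h).2.2.1 hx
        · exact (had i hi).2.2.2 hx
      rw [hK8 (ZS n S) m q (Zf S) _ e1 e2 hsup, e3]
    · push Not at hok
      have hz : co n (b + 1) u (insert m S) = 0 := funext hok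
      rw [hz]
      simp [cupc]

omit [IsAlgClosed k] in
open Classical in
/-- the family z as a function of the set S = {i, j} -/
noncomputable def Zf (z : ℕ → ℕ → Finset ℕ → k) (S : Finset ℕ) : Finset ℕ → k :=
  if h : S.Nonempty then z (S.min' h) (S.max' h) else 0

omit [IsAlgClosed k] in
theorem Zf_pair (z : ℕ → ℕ → Finset ℕ → k) (i j : ℕ) (hij : i < j) : Zf z {i, j} = z i j := by
  have hne : ({i, j} : Finset ℕ).Nonempty := ⟨i, by simp⟩
  have h1 : ({i, j} : Finset ℕ).min' hne = i := by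
    apply le_antisymm
    · exact Finset.min'_le _ _ (by simp)
    · apply Finset.le_min'
      intro y hy
      simp only [Finset.mem_insert, Finset.mem_singleton] at hy
      omega
  have h2 : ({i, j} : Finset ℕ).max' hne = j := by
    apply le_antisymm
    · apply Finset.max'_le
      intro y hy
      simp only [Finset.mem_insert, Finset.mem_singleton] at hy
      omega
    · exact Finset.le_max' _ _ (by simp)
  unfold Zf
  rw [dif_pos hne, h1, h2]

theorem two_sorted (S : Finset ℕ) (h : S.card = 2) : ∃ i j, i < j ∧ S = {i, j} := by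
  obtain ⟨x, y, hxy, rfl⟩ := Finset.card_eq_two.mp h
  rcases lt_or_gt_of_ne hxy with h | h
  · exact ⟨x, y, h, rfl⟩
  · exact ⟨y, x, h, Finset.pair_comm x y⟩

theorem three_sorted (S : Finset ℕ) (h : S.card = 3) :
    ∃ i j l, i < j ∧ j < l ∧ S = {i, j, l} := by
  obtain ⟨x, y, z, h1, h2, h3, rfl⟩ := Finset.card_eq_three.mp h
  have key : ∀ a b c : ℕ, ({x, y, z} : Finset ℕ) = {a, b, c} ↔
      ∀ t, (t = x ∨ t = y ∨ t = z) ↔ (t = a ∨ t = b ∨ t = c) := by
    intro a b c
    rw [Finset.ext_iff]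
    simp
  rcases lt_or_gt_of_ne h1 with a | a <;> rcases lt_or_gt_of_ne h2 with b | b <;>
    rcases lt_or_gt_of_ne h3 with c | c
  · exact ⟨x, y, z, a, c, rfl⟩
  · exact ⟨x, z, y, b, c, (key _ _ _).mpr fun t => by tauto⟩
  · omega
  · exact ⟨z, x, y, b, a, (key _ _ _).mpr fun t => by tauto⟩
  · exact ⟨y, x, z, a, b, (key _ _ _).mpr fun t => by tauto⟩
  · omega
  · exact ⟨y, z, x, c, b, (key _ _ _).mpr fun t => by tauto⟩
  · exact ⟨z, y, x, c, a, (key _ _ _).mpr fun t => by tauto⟩

theorem ZS_one (n i : ℕ) : ZS n {i} = Z1 n i := by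
  ext x
  simp only [ZS, Z1, Finset.mem_sdiff, Finset.mem_range, Finset.mem_union, Finset.mem_insert,
    Finset.mem_singleton, Finset.mem_image, not_or, not_exists, not_and, forall_eq]
  constructor
  · rintro ⟨h1, h2, h3⟩
    exact ⟨h1, h2, fun h => h3 h.symm⟩
  · rintro ⟨h1, h2, h3⟩
    exact ⟨h1, h2, fun h => h3 h.symm⟩

theorem ZS_two (n i j : ℕ) : ZS n {i, j} = Z2 n i j := by
  ext x
  simp only [ZS, Z2, Finset.mem_sdiff, Finset.mem_range, Finset.mem_union, Finset.mem_insert,
    Finset.mem_singleton, Finset.mem_image, not_or, not_exists, not_and, forall_eq_or_imp,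
    forall_eq]
  constructor
  · rintro ⟨h1, ⟨h2, h3⟩, h4, h5⟩
    exact ⟨h1, h2, fun h => h4 h.symm, h3, fun h => h5 h.symm⟩
  · rintro ⟨h1, h2, h3, h4, h5⟩
    exact ⟨h1, ⟨h2, h4⟩, fun h => h3 h.symm, fun h => h5 h.symm⟩

theorem ZS_three (n i j l : ℕ) : ZS n {i, j, l} = Z3 n i j l := by
  ext x
  simp only [ZS, Z3, Finset.mem_sdiff, Finset.mem_range, Finset.mem_union, Finset.mem_insert,
    Finset.mem_singleton, Finset.mem_image, not_or, not_exists, not_and, forall_eq_or_imp,
    forall_eq]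
  constructor
  · rintro ⟨h1, ⟨h2, h3, h4⟩, h5, h6, h7⟩
    exact ⟨h1, h2, fun h => h5 h.symm, h3, fun h => h6 h.symm, h4, fun h => h7 h.symm⟩
  · rintro ⟨h1, h2, h3, h4, h5, h6, h7⟩
    exact ⟨h1, ⟨h2, h4, h6⟩, fun h => h3 h.symm, fun h => h5 h.symm, fun h => h7 h.symm⟩

/-- the cocycle condition kills the highest weight vectors of degree 3 -/
theorem asm_cocy (hK2 : S_K2 k) (hK3 : S_K3 k) (hK5 : S_K5 k) (hK8 : S_K8 k) (n q : ℕ)
    (hn : 2 * (q + 3) ≤ n) (z : ℕ → ℕ → Finset ℕ → k) (hz : Cocy2 n (q + 3) z)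
    (u : ((KC k n).T 3).V) (hu : u ∈ invs ((KC k n).T 3) ((n : ℤ) - 2 * (q + 3 : ℕ))) :
    ∑ S ∈ (Finset.range n).powerset, ∑ T ∈ (ZS n S).powersetCard (q + 1),
      Zf z S T * co n 2 ((KC k n).d 2 u) S T = 0 := by
  rw [asm_adj hK2 hK3 hK8 n 2 q (Zf z) u]
  apply Finset.sum_eq_zero
  intro S _
  by_cases hok : ∃ T, co n 3 u S T ≠ 0
  · obtain ⟨T0, hT0⟩ := hok
    obtain ⟨hcard, hadm, _⟩ := (hK2 n 3).1 u _ _ hT0
    obtain ⟨i, j, l, hij, hjl, rfl⟩ := three_sorted S hcard
    have ai := hadm i (by simp)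
    have aj := hadm j (by simp)
    have al := hadm l (by simp)
    have hij2 : i + 2 ≤ j := by
      by_contra h
      have : i + 1 = j := by omega
      exact ai.2.1 (by simp [this])
    have hjl2 : j + 2 ≤ l := by
      by_contra h
      have : j + 1 = l := by omega
      exact aj.2.1 (by simp [this])
    have hmem := (hK5 n 3 (q + 3) q rfl hn).1 u hu {i, j, l}
    rw [ZS_three] at hmem ⊢
    have hc := hz i j l hij2 hjl2 al.1 _ hmem
    rw [Nat.add_sub_cancel] at hc
    have e1 : ({i, j, l} : Finset ℕ).erase i = {j, l} := by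
      ext t
      simp only [Finset.mem_erase, Finset.mem_insert, Finset.mem_singleton]
      omega
    have e2 : ({i, j, l} : Finset ℕ).erase j = {i, l} := by
      ext t
      simp only [Finset.mem_erase, Finset.mem_insert, Finset.mem_singleton]
      omega
    have e3 : ({i, j, l} : Finset ℕ).erase l = {i, j} := by
      ext t
      simp only [Finset.mem_erase, Finset.mem_insert, Finset.mem_singleton]
      omega
    have f1 : ({i, j, l} : Finset ℕ).filter (fun t => i < t) = {j, l} := by
      ext t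
      simp only [Finset.mem_filter, Finset.mem_insert, Finset.mem_singleton]
      omega
    have f2 : ({i, j, l} : Finset ℕ).filter (fun t => j < t) = {l} := by
      ext t
      simp only [Finset.mem_filter, Finset.mem_insert, Finset.mem_singleton]
      omega
    have f3 : ({i, j, l} : Finset ℕ).filter (fun t => l < t) = ∅ := by
      rw [Finset.filter_eq_empty_iff]
      intro t ht
      simp only [Finset.mem_insert, Finset.mem_singleton] at ht
      omega
    have ni : i ∉ ({j, l} : Finset ℕ) := by simp; omega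
    have nj : j ∉ ({l} : Finset ℕ) := by simp; omega
    rw [Finset.sum_insert ni, Finset.sum_insert nj, Finset.sum_singleton, e1, e2, e3, f1, f2, f3,
      Zf_pair z j l hjl, Zf_pair z i l (by omega), Zf_pair z i j hij, Finset.card_empty,
      Finset.card_singleton, Finset.card_pair (by omega)]
    unfold frm at hc
    simp only [Pi.add_apply, Pi.sub_apply, add_mul, sub_mul, Finset.sum_add_distrib,
      Finset.sum_sub_distrib] at hc
    linear_combination hc
  · push Not at hok
    have hz' : co n 3 u S = 0 := funext hok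
    apply Finset.sum_eq_zero
    intro m _
    have : co n (2 + 1) u S = 0 := hz'
    rw [this]
    simp

/-- the coboundary formula -/
theorem asm_cob (hK2 : S_K2 k) (hK3 : S_K3 k) (hK8 : S_K8 k) (n q : ℕ)
    (y : Finset ℕ → Finset ℕ → k) (i j : ℕ) (hij : i + 2 ≤ j) (hj : j + 1 < n)
    (h : Finset ℕ → k) (u : ((KC k n).T 2).V)
    (hu : ∀ S' T, co n 2 u S' T = if S' = {i, j} then h T else 0) :
    ∑ S ∈ (Finset.range n).powerset, ∑ T ∈ (ZS n S).powersetCard (q + 1),
      y S T * co n 1 ((KC k n).d 1 u) S T =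
    - frm (Z2 n i j) q (cap i (y {j}) - cap j (y {i})) h := by
  rw [asm_adj hK2 hK3 hK8 n 1 q y u]
  have hS : ({i, j} : Finset ℕ) ∈ (Finset.range n).powerset := by
    rw [Finset.mem_powerset]
    intro t ht
    simp only [Finset.mem_insert, Finset.mem_singleton] at ht
    rw [Finset.mem_range]
    omega
  rw [Finset.sum_eq_single_of_mem _ hS]
  · have e1 : ({i, j} : Finset ℕ).erase i = {j} := by
      ext t
      simp only [Finset.mem_erase, Finset.mem_insert, Finset.mem_singleton]
      omega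
    have e2 : ({i, j} : Finset ℕ).erase j = {i} := by
      ext t
      simp only [Finset.mem_erase, Finset.mem_insert, Finset.mem_singleton]
      omega
    have f1 : ({i, j} : Finset ℕ).filter (fun t => i < t) = {j} := by
      ext t
      simp only [Finset.mem_filter, Finset.mem_insert, Finset.mem_singleton]
      omega
    have f2 : ({i, j} : Finset ℕ).filter (fun t => j < t) = ∅ := by
      rw [Finset.filter_eq_empty_iff]
      intro t ht
      simp only [Finset.mem_insert, Finset.mem_singleton] at ht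
      omega
    have ni : i ∉ ({j} : Finset ℕ) := by simp; omega
    rw [Finset.sum_insert ni, Finset.sum_singleton, e1, e2, f1, f2, Finset.card_empty,
      Finset.card_singleton, ZS_two]
    have hco : ∀ T, co n (1 + 1) u {i, j} T = h T := by
      intro T
      have := hu {i, j} T
      rw [if_pos rfl] at this
      exact this
    simp only [hco, frm, Pi.sub_apply, sub_mul, Finset.sum_sub_distrib]
    ring
  · intro S _ hne
    apply Finset.sum_eq_zero
    intro m _
    have hco : ∀ T, co n (1 + 1) u S T = 0 := by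
      intro T
      have := hu S T
      rw [if_neg hne] at this
      exact this
    simp [hco]

end Asm

theorem III_of
    (hK1 : ∀ (k : Type) [Field k] [IsAlgClosed k], S_K1 k)
    (hK2 : ∀ (k : Type) [Field k] [IsAlgClosed k], S_K2 k)
    (hK3 : ∀ (k : Type) [Field k] [IsAlgClosed k], S_K3 k)
    (hK5 : ∀ (k : Type) [Field k] [IsAlgClosed k], S_K5 k)
    (hK6 : ∀ (k : Type) [Field k] [IsAlgClosed k], S_K6 k)
    (hK7 : ∀ (k : Type) [Field k] [IsAlgClosed k], S_K7 k)
    (hK8 : ∀ (k : Type) [Field k] [IsAlgClosed k], S_K8 k)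
    (hG6 : ∀ (k : Type) [Field k] [IsAlgClosed k], S_G6 k)
    (hG8 : S_G8)
    (hG9 : ∀ (k : Type) [Field k] [IsAlgClosed k] (p : ℕ) [Fact p.Prime] [CharP k p], S_G9 k p) :
    S_III := by
  intro k _ _ p _ _ n r hr hn z z' hz hz' cz cz'
  obtain ⟨q, rfl⟩ : ∃ q, r = q + 2 := ⟨r - 2, by omega⟩
  obtain ⟨⟨c, hc⟩, hc2⟩ := hG8 p Fact.out
  obtain ⟨A', hA', hfd⟩ := hG9 k p c hc (n + 1) (by omega)
  rw [Nat.add_sub_cancel] at hA'
  have hfd2 : fd (A'.T 2) ((n : ℤ) - 2 * (q + 2 : ℕ)) ≤ 1 := by
    have h1 := hfd 2 (n - 2 * (q + 2) + 1)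
    have h2 := hc2 c hc (n + 1) (n - 2 * (q + 2) + 1) (by omega)
    have e : (((n - 2 * (q + 2) + 1 : ℕ) : ℤ) - 1) = (n : ℤ) - 2 * (q + 2 : ℕ) := by
      push_cast [Nat.cast_sub hn]
      ring
    rw [e] at h1
    exact h1.trans h2
  -- the functionals
  have hfam : ∀ z : ℕ → ℕ → Finset ℕ → k, Coch2 n (q + 2) z → ∀ S, okk n 2 S ∅ →
      Zf z S ∈ PP k (ZS n S) q := by
    intro z hz S hS
    obtain ⟨hcard, hadm, _⟩ := hS
    obtain ⟨i, j, hij, rfl⟩ := two_sorted S hcard
    have ai := hadm i (by simp)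
    have aj := hadm j (by simp)
    have hij2 : i + 2 ≤ j := by
      by_contra h
      have : i + 1 = j := by omega
      exact ai.2.1 (by simp [this])
    rw [Zf_pair z i j hij, ZS_two]
    exact hz i j hij2 aj.1
  obtain ⟨L, hL1, hL2⟩ := (hK7 k n 2 (q + 2) q rfl hn).2 (Zf z) (hfam z hz)
  obtain ⟨L', hL1', hL2'⟩ := (hK7 k n 2 (q + 2) q rfl hn).2 (Zf z') (hfam z' hz')
  have hcoc : ∀ (z : ℕ → ℕ → Finset ℕ → k), Cocy2 n (q + 2) z →
      ∀ u ∈ invs ((KC k n).T 3) ((n : ℤ) - 2 * (q + 2 : ℕ)),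
        ∑ S ∈ (Finset.range n).powerset, ∑ T ∈ (ZS n S).powersetCard q,
          Zf z S T * co n 2 ((KC k n).d 2 u) S T = 0 := by
    intro z cz u hu
    rcases Nat.eq_zero_or_pos q with hq | hq
    · subst hq
      have := hK6 k n 3 (0 + 2) (by omega) u hu
      rw [this]
      simp
    · obtain ⟨q', rfl⟩ : ∃ q', q = q' + 1 := ⟨q - 1, by omega⟩
      exact asm_cocy (hK2 k) (hK3 k) (hK5 k) (hK8 k) n q' (by omega) z cz u hu
  obtain ⟨c1, c2, hne, ψ, hψ1, hψ2⟩ := hG6 k (nab k n) (KC k n) A' _ (hK1 k n) hA' hfd2 L L' hL1 hL1'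
    (fun v hv => by rw [hL2]; exact hcoc z cz v hv)
    (fun v hv => by rw [hL2']; exact hcoc z' cz' v hv)
  obtain ⟨y, hy1, hy2⟩ := (hK7 k n 1 (q + 2) (q + 1) rfl hn).1 ψ hψ1
  refine ⟨c1, c2, hne, fun i => -(y {i}), ?_, ?_⟩
  · intro i hi
    have h1 : okk n 1 {i} ∅ := by
      refine ⟨Finset.card_singleton i, ?_, by simp⟩
      intro a ha
      rw [Finset.mem_singleton] at ha
      subst ha
      exact ⟨hi, by simp, by simp, by simp⟩
    have h2 := hy1 {i} h1
    rw [ZS_one] at h2
    have e : q + 2 - 1 = q + 1 := by omega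
    rw [e]
    exact Submodule.neg_mem _ h2
  · intro i j hij hj h hh
    rw [Nat.add_sub_cancel] at hh ⊢
    have hok : okk n 2 {i, j} ∅ := by
      refine ⟨Finset.card_pair (by omega), ?_, by simp⟩
      intro a ha
      simp only [Finset.mem_insert, Finset.mem_singleton] at ha
      refine ⟨by omega, ?_, by simp, by simp⟩
      simp only [Finset.mem_insert, Finset.mem_singleton]
      omega
    obtain ⟨u, hu1, hu2⟩ := (hK5 k n 2 (q + 2) q rfl hn).2 {i, j} hok h (by rwa [ZS_two])
    have h1 := hψ2 u hu1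
    have hdu : (KC k n).d 1 u ∈ invs ((KC k n).T 1) ((n : ℤ) - 2 * (q + 2 : ℕ)) := by
      refine ⟨fun s => ?_, fun t => ?_⟩
      · rw [← (KC k n).hd 1, hu1.1 s, map_smul]
      · rw [← (KC k n).hd 1, hu1.2 t]
    rw [hy2 _ hdu, asm_cob (hK2 k) (hK3 k) (hK8 k) n q y i j hij hj h u hu2, hL2, hL2'] at h1
    have hS : ({i, j} : Finset ℕ) ∈ (Finset.range n).powerset := by
      rw [Finset.mem_powerset]
      intro t ht
      simp only [Finset.mem_insert, Finset.mem_singleton] at ht
      rw [Finset.mem_range]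
      omega
    have key : ∀ z : ℕ → ℕ → Finset ℕ → k,
        ∑ S ∈ (Finset.range n).powerset, ∑ T ∈ (ZS n S).powersetCard q,
          Zf z S T * co n 2 u S T = frm (Z2 n i j) q (z i j) h := by
      intro z
      rw [Finset.sum_eq_single_of_mem _ hS]
      · rw [ZS_two, Zf_pair z i j (by omega)]
        unfold frm
        apply Finset.sum_congr rfl
        intro T _
        rw [hu2, if_pos rfl]
      · intro S _ hne
        apply Finset.sum_eq_zero
        intro T _
        rw [hu2, if_neg hne, mul_zero]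
    rw [key, key] at h1
    have capneg : ∀ (m : ℕ) (w : Finset ℕ → k) T, cap m (-w) T = - cap m w T := by
      intro m w T
      unfold cap
      split_ifs
      · simp only [Pi.neg_apply]
        ring
      · simp
    unfold frm at h1 ⊢
    simp only [Pi.add_apply, Pi.sub_apply, Pi.smul_apply, smul_eq_mul, add_mul, sub_mul, capneg,
      Finset.sum_add_distrib, Finset.sum_sub_distrib, neg_mul, Finset.sum_neg_distrib,
      mul_assoc, ← Finset.mul_sum] at h1 ⊢
    linear_combination h1

end Pool.Agent.Sp49.Three
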