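import Mathlib
import Pool.Agent.Lib.MP_49c83e_al.Three.Asm
import Pool.Agent.Lib.MP_49c83e_al.Three.P.A1
import Pool.Agent.Lib.MP_49c83e_al.Three.P.A2
import Pool.Agent.Lib.MP_49c83e_al.Three.P.A3
import Pool.Agent.Lib.MP_49c83e_al.Three.P.A4
import Pool.Agent.Lib.MP_49c83e_al.Three.P.A5
import Pool.Agent.Lib.MP_49c83e_al.Three.P.A6
import Pool.Agent.Lib.MP_49c83e_al.Three.P.A7
import Pool.Agent.Lib.MP_49c83e_al.Three.P.A8
import Pool.Agent.Lib.MP_49c83e_al.Three.P.A9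
import Pool.Agent.Lib.MP_49c83e_al.Three.P.A10
import Pool.Agent.Lib.MP_49c83e_al.Three.P.B1
import Pool.Agent.Lib.MP_49c83e_al.Three.P.B2
import Pool.Agent.Lib.MP_49c83e_al.Three.P.B3
import Pool.Agent.Lib.MP_49c83e_al.Three.P.B4
import Pool.Agent.Lib.MP_49c83e_al.Three.P.B5
import Pool.Agent.Lib.MP_49c83e_al.Three.P.B6
import Pool.Agent.Lib.MP_49c83e_al.Three.P.B7
import Pool.Agent.Lib.MP_49c83e_al.Three.P.C1
import Pool.Agent.Lib.MP_49c83e_al.Three.P.C2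
import Pool.Agent.Lib.MP_49c83e_al.Three.P.C3
import Pool.Agent.Lib.MP_49c83e_al.Three.P.C4
import Pool.Agent.Lib.MP_49c83e_al.Three.P.C5
import Pool.Agent.Lib.MP_49c83e_al.Three.P.D1
import Pool.Agent.Lib.MP_49c83e_al.Three.P.D2
import Pool.Agent.Lib.MP_49c83e_al.Three.P.D3
import Pool.Agent.Lib.MP_49c83e_al.Three.P.D4
import Pool.Agent.Lib.MP_49c83e_al.Three.P.D5
import Pool.Agent.Lib.MP_49c83e_al.Three.P.D6
import Pool.Agent.Lib.MP_49c83e_al.Three.P.G1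
import Pool.Agent.Lib.MP_49c83e_al.Three.P.G2
import Pool.Agent.Lib.MP_49c83e_al.Three.P.G3
import Pool.Agent.Lib.MP_49c83e_al.Three.P.G4a
import Pool.Agent.Lib.MP_49c83e_al.Three.P.G4
import Pool.Agent.Lib.MP_49c83e_al.Three.P.G5
import Pool.Agent.Lib.MP_49c83e_al.Three.P.G6
import Pool.Agent.Lib.MP_49c83e_al.Three.P.F1
import Pool.Agent.Lib.MP_49c83e_al.Three.P.K1
import Pool.Agent.Lib.MP_49c83e_al.Three.P.K2
import Pool.Agent.Lib.MP_49c83e_al.Three.P.K3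
import Pool.Agent.Lib.MP_49c83e_al.Three.P.K4
import Pool.Agent.Lib.MP_49c83e_al.Three.P.K5
import Pool.Agent.Lib.MP_49c83e_al.Three.P.K6
import Pool.Agent.Lib.MP_49c83e_al.Three.P.K7
import Pool.Agent.Lib.MP_49c83e_al.Three.P.K8
import Pool.Agent.Lib.MP_49c83e_al.Three.P.E1
import Pool.Agent.Lib.MP_49c83e_al.Three.P.E2
import Pool.Agent.Lib.MP_49c83e_al.Three.P.E3
import Pool.Agent.Lib.MP_49c83e_al.Three.P.E4
import Pool.Agent.Lib.MP_49c83e_al.Three.P.E5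
import Pool.Agent.Lib.MP_49c83e_al.Three.P.E6
import Pool.Agent.Lib.MP_49c83e_al.Three.P.E7
import Pool.Agent.Lib.MP_49c83e_al.Three.P.E8
import Pool.Agent.Lib.MP_49c83e_al.Three.P.F2
import Pool.Agent.Lib.MP_49c83e_al.Three.P.F3
import Pool.Agent.Lib.MP_49c83e_al.Three.P.F4
import Pool.Agent.Lib.MP_49c83e_al.Three.P.F5
import Pool.Agent.Lib.MP_49c83e_al.Three.P.F6
import Pool.Agent.Lib.MP_49c83e_al.Three.P.F7
import Pool.Agent.Lib.MP_49c83e_al.Three.P.G7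
import Pool.Agent.Lib.MP_49c83e_al.Three.P.G8
import Pool.Agent.Lib.MP_49c83e_al.Three.P.G9

/-!
MP_49c83e_al, Theorem III: all pieces together.
-/

namespace Pool.Agent.Sp49.Three

theorem q_A1 (k : Type) [Field k] [IsAlgClosed k] : S_A1 k := p_A1 (k := k)

theorem q_A2 (k : Type) [Field k] [IsAlgClosed k] : S_A2 k := p_A2 (k := k)

theorem q_A4 (k : Type) [Field k] [IsAlgClosed k] : S_A4 k := p_A4 (k := k)

theorem q_A5 (k : Type) [Field k] [IsAlgClosed k] : S_A5 k := p_A5 (k := k)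

theorem q_A6 (k : Type) [Field k] [IsAlgClosed k] : S_A6 k := p_A6 (k := k)

theorem q_B1 (k : Type) [Field k] [IsAlgClosed k] : S_B1 k := p_B1 (k := k)

theorem q_B2 (k : Type) [Field k] [IsAlgClosed k] : S_B2 k := p_B2 (k := k)

theorem q_D1 (k : Type) [Field k] [IsAlgClosed k] : S_D1 k := p_D1 (k := k)

theorem q_D4 (k : Type) [Field k] [IsAlgClosed k] (p : ℕ) [Fact p.Prime] [CharP k p] :
    S_D4 k p := p_D4 (k := k) (p := p)

theorem q_G4a (k : Type) [Field k] [IsAlgClosed k] : S_G4a k := p_G4a (k := k)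

theorem q_K2 (k : Type) [Field k] [IsAlgClosed k] : S_K2 k := p_K2 (k := k)

theorem q_K8 (k : Type) [Field k] [IsAlgClosed k] : S_K8 k := p_K8 (k := k)

theorem q_G8 : S_G8 := p_G8

theorem q_A3 (k : Type) [Field k] [IsAlgClosed k] : S_A3 k := p_A3 (k := k) (q_A1 k)

theorem q_A7 (k : Type) [Field k] [IsAlgClosed k] : S_A7 k := p_A7 (k := k) (q_A6 k)

theorem q_A10 (k : Type) [Field k] [IsAlgClosed k] : S_A10 k := p_A10 (k := k) (q_A5 k)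

theorem q_B4 (k : Type) [Field k] [IsAlgClosed k] : S_B4 k := p_B4 (k := k) (q_B1 k)

theorem q_B5 (k : Type) [Field k] [IsAlgClosed k] : S_B5 k := p_B5 (k := k) (q_B1 k)

theorem q_B7 (k : Type) [Field k] [IsAlgClosed k] (p : ℕ) [Fact p.Prime] [CharP k p] :
    S_B7 k p := p_B7 (k := k) (p := p) (q_B1 k)

theorem q_D2 (k : Type) [Field k] [IsAlgClosed k] : S_D2 k := p_D2 (k := k) (q_B1 k) (q_D1 k)

theorem q_K3 (k : Type) [Field k] [IsAlgClosed k] : S_K3 k := p_K3 (k := k) (q_K2 k)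

theorem q_K4 (k : Type) [Field k] [IsAlgClosed k] : S_K4 k := p_K4 (k := k) (q_K2 k)

theorem q_E3 (k : Type) [Field k] [IsAlgClosed k] (p : ℕ) [Fact p.Prime] [CharP k p] :
    S_E3 k p := p_E3 (k := k) (p := p) (q_A1 k) (q_A2 k)

theorem q_F3 (k : Type) [Field k] [IsAlgClosed k] (p : ℕ) [Fact p.Prime] [CharP k p] :
    S_F3 k p := p_F3 (k := k) (p := p) (q_A2 k) (q_B1 k) (q_B2 k)

theorem q_A8 (k : Type) [Field k] [IsAlgClosed k] : S_A8 k := p_A8 (k := k) (q_A1 k) (q_A3 k) (q_A4 k) (q_A7 k)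

theorem q_B6 (k : Type) [Field k] [IsAlgClosed k] : S_B6 k := p_B6 (k := k) (q_B1 k) (q_B4 k)

theorem q_C1 (k : Type) [Field k] [IsAlgClosed k] : S_C1 k := p_C1 (k := k) (q_B4 k)

theorem q_C2 (k : Type) [Field k] [IsAlgClosed k] : S_C2 k := p_C2 (k := k) (q_A1 k) (q_A2 k) (q_A3 k) (q_A4 k) (q_A5 k) (q_A7 k) (q_A10 k) (q_B1 k) (q_B2 k)

theorem q_D3 (k : Type) [Field k] [IsAlgClosed k] : S_D3 k := p_D3 (k := k) (q_D1 k) (q_D2 k)

theorem q_K5 (k : Type) [Field k] [IsAlgClosed k] : S_K5 k := p_K5 (k := k) (q_K2 k) (q_K4 k)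

theorem q_K6 (k : Type) [Field k] [IsAlgClosed k] : S_K6 k := p_K6 (k := k) (q_K2 k) (q_K4 k)

theorem q_K7 (k : Type) [Field k] [IsAlgClosed k] : S_K7 k := p_K7 (k := k) (q_K2 k) (q_K4 k)

theorem q_F2 (k : Type) [Field k] [IsAlgClosed k] (p : ℕ) [Fact p.Prime] [CharP k p] :
    S_F2 k p := p_F2 (k := k) (p := p) (q_A1 k) (q_A2 k) (q_A7 k) (q_E3 k p)

theorem q_F5 (k : Type) [Field k] [IsAlgClosed k] (p : ℕ) [Fact p.Prime] [CharP k p] :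
    S_F5 k p := p_F5 (k := k) (p := p) (q_A2 k) (q_A3 k) (q_A4 k) (q_A7 k) (q_B1 k) (q_B2 k)

theorem q_A9 (k : Type) [Field k] [IsAlgClosed k] : S_A9 k := p_A9 (k := k) (q_A1 k) (q_A3 k) (q_A4 k) (q_A5 k) (q_A7 k) (q_A8 k)

theorem q_B3 (k : Type) [Field k] [IsAlgClosed k] : S_B3 k := p_B3 (k := k) (q_A8 k) (q_B1 k) (q_B2 k)

theorem q_C3 (k : Type) [Field k] [IsAlgClosed k] : S_C3 k := p_C3 (k := k) (q_C2 k)

theorem q_D5 (k : Type) [Field k] [IsAlgClosed k] (p : ℕ) [Fact p.Prime] [CharP k p] :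
    S_D5 k p := p_D5 (k := k) (p := p) (q_B6 k) (q_D1 k) (q_D2 k) (q_D3 k)

theorem q_G1 (k : Type) [Field k] [IsAlgClosed k] : S_G1 k := p_G1 (k := k) (q_C1 k) (q_D3 k)

theorem q_G2 (k : Type) [Field k] [IsAlgClosed k] : S_G2 k := p_G2 (k := k) (q_C1 k) (q_D3 k)

theorem q_G4 (k : Type) [Field k] [IsAlgClosed k] : S_G4 k := p_G4 (k := k) (q_C1 k) (q_G4a k)

theorem q_G7 (k : Type) [Field k] [IsAlgClosed k] (p : ℕ) [Fact p.Prime] [CharP k p] :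
    S_G7 k p := p_G7 (k := k) (p := p) (q_C1 k)

theorem q_C4 (k : Type) [Field k] [IsAlgClosed k] : S_C4 k := p_C4 (k := k) (q_C1 k) (q_C3 k)

theorem q_D6 (k : Type) [Field k] [IsAlgClosed k] (p : ℕ) [Fact p.Prime] [CharP k p] :
    S_D6 k p := p_D6 (k := k) (p := p) (q_B6 k) (q_B7 k p) (q_D1 k) (q_D2 k) (q_D3 k) (q_D4 k p) (q_D5 k p)

theorem q_F1 (k : Type) [Field k] [IsAlgClosed k] : S_F1 k := p_F1 (k := k) (q_A2 k) (q_A10 k) (q_B1 k) (q_B3 k)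

theorem q_K1 (k : Type) [Field k] [IsAlgClosed k] : S_K1 k := p_K1 (k := k) (q_B4 k) (q_C1 k) (q_D2 k) (q_D3 k) (q_G2 k) (q_G4 k)

theorem q_E1 (k : Type) [Field k] [IsAlgClosed k] : S_E1 k := p_E1 (k := k) (q_A2 k) (q_A9 k)

theorem q_F6 (k : Type) [Field k] [IsAlgClosed k] (p : ℕ) [Fact p.Prime] [CharP k p] :
    S_F6 k p := p_F6 (k := k) (p := p) (q_A2 k) (q_A3 k) (q_A4 k) (q_A8 k) (q_A9 k) (q_B1 k) (q_B2 k)

theorem q_C5 (k : Type) [Field k] [IsAlgClosed k] : S_C5 k := p_C5 (k := k) (q_C4 k)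

theorem q_E2 (k : Type) [Field k] [IsAlgClosed k] : S_E2 k := p_E2 (k := k) (q_A2 k) (q_E1 k)

theorem q_E4 (k : Type) [Field k] [IsAlgClosed k] (p : ℕ) [Fact p.Prime] [CharP k p] :
    S_E4 k p := p_E4 (k := k) (p := p) (q_E1 k) (q_E3 k p)

theorem q_F4 (k : Type) [Field k] [IsAlgClosed k] (p : ℕ) [Fact p.Prime] [CharP k p] :
    S_F4 k p := p_F4 (k := k) (p := p) (q_A7 k) (q_A8 k) (q_E1 k) (q_F3 k p)

theorem q_G3 (k : Type) [Field k] [IsAlgClosed k] : S_G3 k := p_G3 (k := k) (q_C5 k)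

theorem q_E5 (k : Type) [Field k] [IsAlgClosed k] (p : ℕ) [Fact p.Prime] [CharP k p] :
    S_E5 k p := p_E5 (k := k) (p := p) (q_B3 k) (q_B5 k) (q_D2 k) (q_E1 k) (q_E2 k)

theorem q_F7 (k : Type) [Field k] [IsAlgClosed k] (p : ℕ) [Fact p.Prime] [CharP k p] :
    S_F7 k p := p_F7 (k := k) (p := p) (q_A2 k) (q_A7 k) (q_A8 k) (q_B1 k) (q_B2 k) (q_E1 k) (q_E2 k) (q_F4 k p) (q_F5 k p) (q_F6 k p)

theorem q_G5 (k : Type) [Field k] [IsAlgClosed k] : S_G5 k := p_G5 (k := k) (q_C5 k) (q_G3 k)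

theorem q_E6 (k : Type) [Field k] [IsAlgClosed k] (p : ℕ) [Fact p.Prime] [CharP k p] :
    S_E6 k p := p_E6 (k := k) (p := p) (q_B3 k) (q_B5 k) (q_E1 k) (q_E2 k) (q_E5 k p)

theorem q_G6 (k : Type) [Field k] [IsAlgClosed k] : S_G6 k := p_G6 (k := k) (q_A2 k) (q_G5 k)

theorem q_E7 (k : Type) [Field k] [IsAlgClosed k] (p : ℕ) [Fact p.Prime] [CharP k p] :
    S_E7 k p := p_E7 (k := k) (p := p) (q_B7 k p) (q_D1 k) (q_D2 k) (q_E2 k) (q_E4 k p) (q_E6 k p)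

theorem q_E8 (k : Type) [Field k] [IsAlgClosed k] (p : ℕ) [Fact p.Prime] [CharP k p] :
    S_E8 k p := p_E8 (k := k) (p := p) (q_B7 k p) (q_C1 k) (q_D1 k) (q_D2 k) (q_D5 k p) (q_D6 k p) (q_E1 k) (q_E7 k p)

theorem q_G9 (k : Type) [Field k] [IsAlgClosed k] (p : ℕ) [Fact p.Prime] [CharP k p] :
    S_G9 k p := p_G9 (k := k) (p := p) (q_B7 k p) (q_C1 k) (q_D1 k) (q_D3 k) (q_D5 k p) (q_D6 k p) (q_E7 k p) (q_E8 k p) (q_F1 k) (q_F2 k p) (q_F7 k p) (q_G1 k) (q_G3 k) (q_G4 k) (q_G7 k p)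

/-- Theorem III -/
theorem III_proved : S_III :=
  III_of (fun k _ _ => q_K1 k) (fun k _ _ => q_K2 k) (fun k _ _ => q_K3 k) (fun k _ _ => q_K5 k)
    (fun k _ _ => q_K6 k) (fun k _ _ => q_K7 k) (fun k _ _ => q_K8 k) (fun k _ _ => q_G6 k) q_G8
    (fun k _ _ p _ _ => q_G9 k p)

end Pool.Agent.Sp49.Three
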